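import Pool.Agent.Helper6.SP.FQ

set_option autoImplicit false

/-!
Subtraction of natural numbers and inversion of rational numbers in polynomial time.
-/

namespace Pool.Agent.PQE

open N487b59b3 N68a2faeb Pool.Agent.Helper22 Pool.Agent.Helper6.WB Pool.Agent.Helper6.SP
  Computability

section

variable {α : Type} [N487b59b3 α]

theorem val_append (l r : List Bool) : val (l ++ r) = val l + 2 ^ l.length * val r := by
  induction l with
  | nil => simp
  | cons b l ih =>
    rw [List.cons_append, val_cons, val_cons, ih, List.length_cons, pow_succ, Nat.bit_val,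
      Nat.bit_val]
    ring

theorem val_not (l : List Bool) : val (l.map (!·)) + val l + 1 = 2 ^ l.length := by
  induction l with
  | nil => simp
  | cons b l ih =>
    rw [List.map_cons, val_cons, val_cons, List.length_cons, pow_succ, Nat.bit_val, Nat.bit_val]
    cases b <;> simp <;> omega

theorem val_true (n : ℕ) : val (List.replicate n true) + 1 = 2 ^ n := by
  have h := val_not (List.replicate n false)
  rw [List.map_replicate, List.length_replicate] at h
  have h2 : val (List.replicate n false) = 0 := by
    clear h
    induction n with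
    | zero => rfl
    | succ n ih => rw [List.replicate_succ, val_cons, ih]; rfl
  rw [h2] at h
  simpa using h

theorem val_take (l : List Bool) (N : ℕ) : val (l.take N) = val l % 2 ^ N := by
  rcases le_total N l.length with h | h
  · have h1 : val l = val (l.take N) + 2 ^ N * val (l.drop N) := by
      conv_lhs => rw [← List.take_append_drop N l]
      rw [val_append, List.length_take, min_eq_left h]
    have h2 : val (l.take N) < 2 ^ N := by
      have := val_lt (l.take N)
      rwa [List.length_take, min_eq_left h] at this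
    rw [h1, Nat.add_mul_mod_self_left, Nat.mod_eq_of_lt h2]
  · rw [List.take_of_length_le h, Nat.mod_eq_of_lt]
    exact (val_lt l).trans_le (Nat.pow_le_pow_right (by norm_num) h)

theorem FP.valF {f : α → List Bool} (hf : FP f) : FP fun a => val (f a) := by
  have h := FP.canon (FP.reverse hf)
  refine (congrArg FP (funext fun a => ?_)).mp h
  exact hor_reverse _

theorem bits_length (n : ℕ) : (encodeNat n).length = Nat.size n := by
  rw [← sz_nat n]
  rfl

/-- complement of `y` with respect to the length of `x` and `y` -/
def cmpl (x y : ℕ) : List Bool := (encodeNat y).map (!·) ++ (encodeNat x).map fun _ => true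

theorem val_cmpl (x y : ℕ) : val (cmpl x y) + y + 1 =
    2 ^ ((encodeNat x).length + (encodeNat y).length) := by
  rw [cmpl, val_append, List.length_map]
  have h1 := val_not (encodeNat y)
  rw [val_encodeNat] at h1
  have h2 : (encodeNat x).map (fun _ => true) = List.replicate (encodeNat x).length true := by
    rw [List.map_const']
  have h3 := val_true (encodeNat x).length
  rw [h2, pow_add]
  have h4 : 2 ^ (encodeNat x).length * 2 ^ (encodeNat y).length =
      (val (List.replicate (encodeNat x).length true) + 1) * 2 ^ (encodeNat y).length := by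
    rw [h3]
  rw [h4, add_mul, one_mul, ← h1]
  ring

theorem sub_eq (x y : ℕ) : x - y =
    if decide ((encodeNat (x + val (cmpl x y) + 1)).length ≤
      ((encodeNat x) ++ (encodeNat y)).length) then 0 else
    val ((encodeNat (x + val (cmpl x y) + 1)).take ((encodeNat x) ++ (encodeNat y)).length) := by
  have h1 := val_cmpl x y
  rw [List.length_append]
  set N := (encodeNat x).length + (encodeNat y).length with hN
  have hx : x < 2 ^ N := by
    have h2 := val_lt (encodeNat x)
    rw [val_encodeNat] at h2
    exact h2.trans_le (Nat.pow_le_pow_right (by norm_num) (by omega))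
  rw [val_take, val_encodeNat]
  simp only [decide_eq_true_eq]
  rw [bits_length]
  split_ifs with h
  · rw [Nat.size_le] at h
    omega
  · rw [Nat.size_le, not_lt] at h
    have h3 : x + val (cmpl x y) + 1 = 2 ^ N + (x - y) := by omega
    rw [h3, Nat.add_mod_left, Nat.mod_eq_of_lt (by omega)]

@[fun_prop]
theorem FP.natSub {f g : α → ℕ} (hf : FP f) (hg : FP g) : FP fun a => f a - g a := by
  have h1 : FP fun a => cmpl (f a) (g a) := by
    unfold cmpl
    exact FP.append (FP.map (FP.not FP.id) (FP.bits hg)) (FP.map (FP.const true) (FP.bits hf))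
  have h2 : FP fun a => encodeNat (f a + val (cmpl (f a) (g a)) + 1) :=
    FP.bits (FP.natAdd (FP.natAdd hf (FP.valF h1)) (FP.const 1))
  have h3 : FP fun a => (encodeNat (f a)) ++ (encodeNat (g a)) :=
    FP.append (FP.bits hf) (FP.bits hg)
  have h4 := FP.ite (FP.length_le h2 h3) (FP.const (0 : ℕ)) (FP.valF (FP.take h2 h3))
  refine (congrArg FP (funext fun a => ?_)).mp h4
  exact (sub_eq (f a) (g a)).symm

/-- inverse of an element -/
def elInv (e : El) : El :=
  if decide (e.1.1 = e.1.2) then e0 else
    ((if decide (e.1.1 - e.1.2 = 0) then 0 else e.2, if decide (e.1.1 - e.1.2 = 0) then e.2 else 0),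
      (e.1.1 - e.1.2) + (e.1.2 - e.1.1))

theorem elInv_den (e : El) : (elInv e).2 ≠ 0 := by
  unfold elInv
  by_cases h : e.1.1 = e.1.2
  · simp [h, e0]
  · simp only [h, decide_false, Bool.false_eq_true, if_false]
    omega

theorem toQ_elInv (e : El) (_he : e.2 ≠ 0) : toQ (elInv e) = (toQ e)⁻¹ := by
  unfold elInv
  simp only [decide_eq_true_eq]
  split_ifs with h1 h2
  · simp [toQ, e0, h1]
  · have h3 : e.1.1 < e.1.2 := by omega
    simp only [toQ, inv_div]
    have h4 : (((e.1.1 - e.1.2 + (e.1.2 - e.1.1) : ℕ)) : ℚ) = (e.1.2 : ℚ) - e.1.1 := by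
      rw [h2, zero_add, Nat.cast_sub h3.le]
    rw [h4]
    push_cast
    rw [zero_sub, neg_div, ← div_neg, neg_sub]
  · have h3 : e.1.2 < e.1.1 := by omega
    simp only [toQ, inv_div]
    have h4 : (((e.1.1 - e.1.2 + (e.1.2 - e.1.1) : ℕ)) : ℚ) = (e.1.1 : ℚ) - e.1.2 := by
      have h5 : e.1.2 - e.1.1 = 0 := by omega
      rw [h5, add_zero, Nat.cast_sub h3.le]
    rw [h4]
    push_cast
    rw [sub_zero]

@[fun_prop]
theorem fp_elInv {f : α → El} (hf : FP f) : FP fun a => elInv (f a) := by
  unfold elInv
  exact FP.ite (by fun_prop) (FP.const _) (FP.pair (FP.pair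
    (FP.ite (FP.natEq (by fun_prop) (FP.const 0)) (FP.const 0) (by fun_prop))
    (FP.ite (FP.natEq (by fun_prop) (FP.const 0)) (by fun_prop) (FP.const 0))) (by fun_prop))

theorem FQ.inv {f : α → ℚ} (hf : FQ f) : FQ fun a => (f a)⁻¹ := by
  obtain ⟨F, h1, h2, h3⟩ := hf
  exact ⟨fun a => elInv (F a), fp_elInv h1, fun a => elInv_den _, fun a => by
    rw [toQ_elInv _ (h2 a), h3]⟩

theorem FQ.div {f g : α → ℚ} (hf : FQ f) (hg : FQ g) : FQ fun a => f a / g a :=
  (FQ.mul hf (FQ.inv hg)).congr fun a => by rw [div_eq_mul_inv]

end

end Pool.Agent.PQE
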