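import Pool.Agent.PQE.Num

set_option autoImplicit false

/-!
Integers as differences of natural numbers, sparse integer matrices.
-/

namespace Pool.Agent.PQE

open N487b59b3 N68a2faeb Pool.Agent.Helper22 Pool.Agent.Helper6.WB Pool.Agent.Helper6.SP

/-- the integer `a.1 - a.2` -/
abbrev In := ℕ × ℕ

/-- value -/
def zv (a : In) : ℤ := (a.1 : ℤ) - a.2

/-- product -/
def zmul (a b : In) : In := (a.1 * b.1 + a.2 * b.2, a.1 * b.2 + a.2 * b.1)

/-- norm -/
def nz (a : In) : ℕ := a.1 + a.2

@[simp] theorem zv_zero : zv 0 = 0 := by simp [zv]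

@[simp] theorem zv_nat (n : ℕ) : zv (n, 0) = n := by simp [zv]

@[simp] theorem zv_add (a b : In) : zv (a + b) = zv a + zv b := by
  simp only [zv, Prod.fst_add, Prod.snd_add]
  push_cast
  ring

@[simp] theorem zv_mul (a b : In) : zv (zmul a b) = zv a * zv b := by
  simp only [zv, zmul]
  push_cast
  ring

theorem zv_sum (l : List In) : zv l.sum = (l.map zv).sum := by
  induction l with
  | nil => simp
  | cons a l ih => simp [ih]

@[simp] theorem nz_zero : nz 0 = 0 := rfl

theorem nz_add (a b : In) : nz (a + b) = nz a + nz b := by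
  simp only [nz, Prod.fst_add, Prod.snd_add]
  ring

theorem nz_mul (a b : In) : nz (zmul a b) = nz a * nz b := by
  simp only [nz, zmul]
  ring

theorem nz_sum (l : List In) : nz l.sum = (l.map nz).sum := by
  induction l with
  | nil => rfl
  | cons a l ih => rw [List.sum_cons, nz_add, ih, List.map_cons, List.sum_cons]

theorem nz_lt (a : In) : nz a + 1 ≤ 2 ^ sz a := by
  obtain ⟨p, n⟩ := a
  simp only [nz, sz_pair, sz_nat]
  have h1 := Nat.lt_size_self p
  have h2 := Nat.lt_size_self n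
  have h3 : (p + 1) * (n + 1) ≤ 2 ^ p.size * 2 ^ n.size := Nat.mul_le_mul h1 h2
  have h4 : 2 ^ p.size * 2 ^ n.size ≤ 2 ^ (2 * p.size + 1 + n.size) := by
    rw [← pow_add]
    exact Nat.pow_le_pow_right (by norm_num) (by omega)
  nlinarith

theorem sz_of_nz {a : In} {E : ℕ} (h : nz a < 2 ^ E) : sz a ≤ 3 * E + 1 := by
  obtain ⟨p, n⟩ := a
  simp only [nz] at h
  simp only [sz_pair, sz_nat]
  have h1 : p.size ≤ E := Nat.size_le.2 (by omega)
  have h2 : n.size ≤ E := Nat.size_le.2 (by omega)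
  omega

/-- sparse integer matrices -/
abbrev Qz := List ((ℕ × ℕ) × In)

/-- entries (with repetition) -/
def lk (A : Qz) (i j : ℕ) : In :=
  (A.map fun e => if (decide (e.1.1 = i) && decide (e.1.2 = j)) then e.2 else (0 : In)).sum

/-- symmetrised entries -/
def lks (A : Qz) (i j : ℕ) : In := lk A i j + lk A j i

/-- sum of the norms of the entries -/
def wz (A : Qz) : ℕ := (A.map fun e => nz e.2).sum

theorem nz_lk (A : Qz) (i j : ℕ) : nz (lk A i j) ≤ wz A := by
  rw [lk, nz_sum, wz, List.map_map]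
  refine List.sum_le_sum fun e _ => ?_
  simp only [Function.comp_apply]
  split_ifs
  · exact le_rfl
  · exact Nat.zero_le _

theorem nz_lks (A : Qz) (i j : ℕ) : nz (lks A i j) ≤ 2 * wz A := by
  rw [lks, nz_add]
  have h1 := nz_lk A i j
  have h2 := nz_lk A j i
  omega

theorem wz_lt (A : Qz) : wz A + 1 ≤ 2 ^ sz A := by
  induction A with
  | nil => simp [wz]
  | cons e A ih =>
    obtain ⟨⟨i, j⟩, a⟩ := e
    have h1 := nz_lt a
    have h2 : wz (((i, j), a) :: A) = nz a + wz A := by simp [wz]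
    rw [h2, sz_cons]
    simp only [sz_pair]
    have h3 : (nz a + 1) * (wz A + 1) ≤ 2 ^ sz a * 2 ^ sz A := Nat.mul_le_mul h1 ih
    have h4 : 2 ^ sz a * 2 ^ sz A ≤
        2 ^ (2 * (2 * (2 * sz i + 1 + sz j) + 1 + sz a) + 1 + sz A) := by
      rw [← pow_add]
      exact Nat.pow_le_pow_right (by norm_num) (by omega)
    nlinarith

section

variable {α β : Type} [N487b59b3 α] [N487b59b3 β]

@[fun_prop]
theorem FP.zadd {f g : α → In} (hf : FP f) (hg : FP g) : FP fun a => f a + g a := by
  have h : FP fun a => (((f a).1 + (g a).1, (f a).2 + (g a).2) : In) := by fun_prop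
  exact h

@[fun_prop]
theorem FP.zmul {f g : α → In} (hf : FP f) (hg : FP g) : FP fun a => PQE.zmul (f a) (g a) := by
  unfold PQE.zmul
  fun_prop

theorem foldl_add (l : List In) (a : In) : l.foldl (fun s b => s + b) a = a + l.sum := by
  induction l generalizing a with
  | nil => simp
  | cons b l ih => rw [List.foldl_cons, ih, List.sum_cons, add_assoc]

theorem nz_sum_lt (l : List In) : nz l.sum + 1 ≤ 2 ^ sz l := by
  induction l with
  | nil => simp
  | cons a l ih =>
    have h1 := nz_lt a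
    rw [List.sum_cons, nz_add, sz_cons]
    have h3 : (nz a + 1) * (nz l.sum + 1) ≤ 2 ^ sz a * 2 ^ sz l := Nat.mul_le_mul h1 ih
    have h4 : 2 ^ sz a * 2 ^ sz l ≤ 2 ^ (2 * sz a + 1 + sz l) := by
      rw [← pow_add]
      exact Nat.pow_le_pow_right (by norm_num) (by omega)
    nlinarith

@[fun_prop]
theorem FP.zsum {f : α → List In} (hf : FP f) : FP fun a => (f a).sum := by
  have h1 : FP fun p : List In × In => p.1.foldl (fun s b => s + b) p.2 := by
    refine FP.foldl (g := fun s b : In => s + b) (by fun_prop) (B := fun n => 3 * n + 1)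
      (by fun_prop) ?_
    intro l a
    rw [foldl_add]
    refine sz_of_nz ?_
    rw [nz_add]
    have h2 := nz_lt a
    have h3 := nz_sum_lt l
    have h4 : (nz l.sum + 1) * (nz a + 1) ≤ 2 ^ sz l * 2 ^ sz a := Nat.mul_le_mul h3 h2
    rw [← pow_add] at h4
    nlinarith
  have h2 := h1.comp (hf.pair (FP.const (0 : In)))
  refine (congrArg FP (funext fun a => ?_)).mp h2
  simp only [foldl_add, zero_add]

instance : Inhabited ((ℕ × ℕ) × In) := ⟨((0, 0), (0, 0))⟩

@[fun_prop]
theorem FP.lk {f : α → Qz} {g h : α → ℕ} (hf : FP f) (hg : FP g) (hh : FP h) :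
    FP fun a => PQE.lk (f a) (g a) (h a) := by
  have h0 : FP fun q : (Qz × (ℕ × ℕ)) × ((ℕ × ℕ) × In) =>
      if (decide (q.2.1.1 = q.1.2.1) && decide (q.2.1.2 = q.1.2.2)) then q.2.2 else (0 : In) :=
    FP.ite (FP.and (by fun_prop) (by fun_prop)) (by fun_prop) (FP.const 0)
  have h1 : FP fun p : Qz × (ℕ × ℕ) => PQE.lk p.1 p.2.1 p.2.2 :=
    FP.zsum (fp_map (f := fun p : Qz × (ℕ × ℕ) => p.1) FP.fst h0)
  exact h1.comp (f := fun a => (f a, (g a, h a))) (hf.pair (hg.pair hh))

@[fun_prop]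
theorem FP.lks {f : α → Qz} {g h : α → ℕ} (hf : FP f) (hg : FP g) (hh : FP h) :
    FP fun a => PQE.lks (f a) (g a) (h a) := by
  unfold PQE.lks
  fun_prop

end

end Pool.Agent.PQE
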