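import Pool.Agent.PQE.Zf

set_option autoImplicit false

/-!
The moments `⟨f ^ D, g ^ D⟩` of powers of quadratic forms by a matrix recursion, in polynomial time.
-/

namespace Pool.Agent.PQE

open N487b59b3 N68a2faeb Pool.Agent.Helper22 Pool.Agent.Helper6.WB Pool.Agent.Helper6.SP

theorem sum_flatMap' {ι M : Type*} [AddMonoid M] (l : List ι) (f : ι → List M) :
    (l.flatMap f).sum = (l.map fun a => (f a).sum).sum := by
  induction l with
  | nil => rfl
  | cons a l ih => rw [List.flatMap_cons, List.sum_append, ih, List.map_cons, List.sum_cons]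

/-- double sum -/
def dsum (N : List ℕ) (F : ℕ → ℕ → In) : In := (N.flatMap fun i => N.map fun j => F i j).sum

theorem dsum_eq {N : List ℕ} (hN : N.Nodup) (F : ℕ → ℕ → In) :
    zv (dsum N F) = ∑ i ∈ N.toFinset, ∑ j ∈ N.toFinset, zv (F i j) := by
  rw [dsum, zv_sum, List.map_flatMap, sum_flatMap', ← List.sum_toFinset _ hN]
  refine Finset.sum_congr rfl fun i _ => ?_
  rw [List.map_map, ← List.sum_toFinset _ hN]
  rfl

theorem nz_dsum (N : List ℕ) (F : ℕ → ℕ → In) (C : ℕ) (h : ∀ i ∈ N, ∀ j ∈ N, nz (F i j) ≤ C) :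
    nz (dsum N F) ≤ N.length * (N.length * C) := by
  rw [dsum, nz_sum, List.map_flatMap, sum_flatMap']
  have h1 : (N.map fun i => (List.map nz (N.map fun j => F i j)).sum).sum ≤
      N.length • (N.length * C) := by
    have := List.sum_le_card_nsmul (N.map fun i => (List.map nz (N.map fun j => F i j)).sum)
      (N.length * C) ?_
    · rwa [List.length_map] at this
    · intro x hx
      obtain ⟨i, hi, rfl⟩ := List.mem_map.1 hx
      have h2 := List.sum_le_card_nsmul (List.map nz (N.map fun j => F i j)) C ?_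
      · rw [List.length_map, List.length_map] at h2
        simpa using h2
      · intro y hy
        obtain ⟨z, hz, rfl⟩ := List.mem_map.1 hy
        obtain ⟨j, hj, rfl⟩ := List.mem_map.1 hz
        exact h i hi j hj
  simpa using h1

/-- context: indices and two forms -/
abbrev Ctx := List ℕ × (Qz × Qz)

/-- state: moment and matrix -/
abbrev St := In × Qz

/-- an entry of the new matrix -/
def mE (c : Ctx) (s : St) (d i l : ℕ) : In :=
  zmul (d + 1, 0) (zmul s.1 (lks c.2.1 i l)) + zmul (2 * ((d + 1) * d), 0)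
    (dsum c.1 fun j k => zmul (zmul (lks c.2.1 i j) (lks c.2.2 j k)) (lk s.2 k l))

/-- the new matrix -/
def mH (c : Ctx) (s : St) (d : ℕ) : Qz :=
  c.1.flatMap fun i => c.1.map fun l => ((i, l), mE c s d i l)

/-- a step of the recursion -/
def mStep (c : Ctx) (s : St) (d : ℕ) : St :=
  (dsum c.1 fun i j => zmul (lks c.2.2 i j) (lk (mH c s d) j i), mH c s d)

/-- the moment number `l.length` -/
def momL (c : Ctx) (l : List ℕ) (s : St) : St := l.foldl (mStep c) s

/-- `2 ^ (D + 1)` times the moment -/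
def momZ (c : Ctx) (D : ℕ) : In := (momL c (List.range D) ((2, 0), [])).1

/-! ## Meaning -/

theorem lk_mH {c : Ctx} (hN : c.1.Nodup) (s : St) (d : ℕ) {i l : ℕ} (hi : i ∈ c.1) (hl : l ∈ c.1) :
    zv (lk (mH c s d) i l) = zv (mE c s d i l) := by
  rw [lk, mH, zv_sum, List.map_flatMap, List.map_flatMap, sum_flatMap',
    ← List.sum_toFinset _ hN, Finset.sum_eq_single i]
  · rw [List.map_map, List.map_map, ← List.sum_toFinset _ hN, Finset.sum_eq_single l]
    · simp
    · intro l' _ hne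
      simp [hne]
    · intro h
      exact absurd (List.mem_toFinset.2 hl) h
  · intro i' _ hne
    rw [List.map_map, List.map_map]
    refine List.sum_eq_zero fun x hx => ?_
    obtain ⟨l', -, rfl⟩ := List.mem_map.1 hx
    simp [hne]
  · intro h
    exact absurd (List.mem_toFinset.2 hi) h

theorem momZ_spec (N : List ℕ) (hN : N.Nodup) (A B : Qz) : ∃ (m : ℕ → ℚ) (G : ℕ → ℕ → ℕ → ℚ),
    m 0 = 1 ∧
    (∀ D : ℕ, ∀ i ∈ N.toFinset, ∀ l ∈ N.toFinset, G (D + 1) i l =
      ((D : ℚ) + 1) * m D * (zv (lks A i l) : ℚ) + ((D : ℚ) + 1) * D *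
        ∑ j ∈ N.toFinset, ∑ k ∈ N.toFinset,
          (zv (lks A i j) : ℚ) * (zv (lks B j k) : ℚ) * G D k l) ∧
    (∀ D : ℕ, m (D + 1) = 1 / 2 * ∑ i ∈ N.toFinset, ∑ j ∈ N.toFinset,
      (zv (lks B i j) : ℚ) * G (D + 1) j i) ∧
    ∀ D : ℕ, (zv (momZ (N, (A, B)) D) : ℚ) = 2 ^ (D + 1) * m D := by
  set S : ℕ → St := fun D => momL (N, (A, B)) (List.range D) ((2, 0), []) with hS
  have hS1 : ∀ D, S (D + 1) = mStep (N, (A, B)) (S D) D := by
    intro D
    simp only [hS, momL, List.range_succ, List.foldl_append, List.foldl_cons, List.foldl_nil]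
  refine ⟨fun D => (zv (S D).1 : ℚ) / 2 ^ (D + 1), fun D i l => (zv (lk (S D).2 i l) : ℚ) / 2 ^ D,
    ?_, ?_, ?_, ?_⟩
  · have h0 : S 0 = ((2, 0), []) := rfl
    simp only [h0]
    have : zv ((2, 0) : In) = 2 := by decide
    rw [this]
    norm_num
  · intro D i hi l hl
    have hi' := List.mem_toFinset.1 hi
    have hl' := List.mem_toFinset.1 hl
    simp only
    rw [hS1]
    have h1 : (mStep (N, (A, B)) (S D) D).2 = mH (N, (A, B)) (S D) D := rfl
    rw [h1, lk_mH (c := (N, (A, B))) hN _ _ hi' hl', mE, zv_add, zv_mul, zv_mul, zv_mul,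
      dsum_eq (N := N) hN]
    simp only [zv_mul, zv_nat]
    push_cast
    have h2 : (2 : ℚ) ^ D ≠ 0 := by positivity
    have h3 : ∑ j ∈ N.toFinset, ∑ k ∈ N.toFinset,
          (zv (lks A i j) : ℚ) * (zv (lks B j k) : ℚ) * ((zv (lk (S D).2 k l) : ℚ) / 2 ^ D) =
        (∑ j ∈ N.toFinset, ∑ k ∈ N.toFinset,
          (zv (lks A i j) : ℚ) * (zv (lks B j k) : ℚ) * (zv (lk (S D).2 k l) : ℚ)) / 2 ^ D := by
      rw [Finset.sum_div]
      refine Finset.sum_congr rfl fun j _ => ?_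
      rw [Finset.sum_div]
      exact Finset.sum_congr rfl fun k _ => by ring
    rw [h3, pow_succ]
    field_simp
  · intro D
    simp only
    rw [hS1]
    have h1 : (mStep (N, (A, B)) (S D) D).1 = dsum N fun i j => zmul (lks B i j)
      (lk (mH (N, (A, B)) (S D) D) j i) := rfl
    have h2 : (mStep (N, (A, B)) (S D) D).2 = mH (N, (A, B)) (S D) D := rfl
    rw [h1, h2, dsum_eq hN]
    simp only [zv_mul]
    push_cast
    have h3 : ∑ i ∈ N.toFinset, ∑ j ∈ N.toFinset,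
          (zv (lks B i j) : ℚ) * ((zv (lk (mH (N, (A, B)) (S D) D) j i) : ℚ) / 2 ^ (D + 1)) =
        (∑ i ∈ N.toFinset, ∑ j ∈ N.toFinset,
          (zv (lks B i j) : ℚ) * (zv (lk (mH (N, (A, B)) (S D) D) j i) : ℚ)) / 2 ^ (D + 1) := by
      rw [Finset.sum_div]
      refine Finset.sum_congr rfl fun j _ => ?_
      rw [Finset.sum_div]
      exact Finset.sum_congr rfl fun k _ => by ring
    rw [h3, pow_succ 2 (D + 1)]
    ring
  · intro D
    have h2 : (2 : ℚ) ^ (D + 1) ≠ 0 := by positivity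
    rw [mul_div_cancel₀ _ h2]
    rfl

/-! ## Size -/

/-- growth factor -/
def gf (c : Ctx) (d : ℕ) : ℕ :=
  16 * (c.1.length + 1) ^ 6 * (wz c.2.1 + 1) * (wz c.2.2 + 1) ^ 2 * (d + 1) ^ 2

/-- total norm of a state -/
def nst (s : St) : ℕ := nz s.1 + wz s.2 + 1

theorem nz_mE (c : Ctx) (s : St) (d i l : ℕ) : nz (mE c s d i l) ≤
    (d + 1) ^ 2 * (8 * (c.1.length + 1) ^ 2 * (wz c.2.1 + 1) * (wz c.2.2 + 1)) *
      (nz s.1 + wz s.2) := by
  rw [mE, nz_add, nz_mul, nz_mul, nz_mul]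
  have h1 := nz_lks c.2.1 i l
  have h2 := nz_dsum c.1 (fun j k => zmul (zmul (lks c.2.1 i j) (lks c.2.2 j k)) (lk s.2 k l))
    (2 * wz c.2.1 * (2 * wz c.2.2) * wz s.2) (fun j _ k _ => by
      rw [nz_mul, nz_mul]
      exact Nat.mul_le_mul (Nat.mul_le_mul (nz_lks _ _ _) (nz_lks _ _ _)) (nz_lk _ _ _))
  have e1 : nz ((d + 1, 0) : In) = d + 1 := rfl
  have e2 : nz ((2 * ((d + 1) * d), 0) : In) = 2 * ((d + 1) * d) := rfl
  rw [e1, e2]
  set n := c.1.length with hn
  set a := wz c.2.1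
  set b := wz c.2.2
  set w := wz s.2
  set m := nz s.1
  have h3 : (d + 1) * (m * nz (lks c.2.1 i l)) ≤ (d + 1) * (m * (2 * a)) :=
    Nat.mul_le_mul_left _ (Nat.mul_le_mul_left _ h1)
  have h4 := Nat.mul_le_mul_left (2 * ((d + 1) * d)) h2
  refine (Nat.add_le_add h3 h4).trans ?_
  have h5 : (d + 1) * (m * (2 * a)) ≤ (d + 1) ^ 2 * (8 * (n + 1) ^ 2 * (a + 1) * (b + 1)) * m := by
    calc (d + 1) * (m * (2 * a)) = (d + 1) * (2 * 1 * a * 1) * m := by ring
      _ ≤ (d + 1) ^ 2 * (8 * (n + 1) ^ 2 * (a + 1) * (b + 1)) * m := by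
          refine Nat.mul_le_mul_right _ (Nat.mul_le_mul ?_ ?_)
          · nlinarith
          · refine Nat.mul_le_mul (Nat.mul_le_mul (Nat.mul_le_mul (by norm_num) ?_) (by omega))
              (by omega)
            exact Nat.one_le_pow _ _ (by omega)
  have h6 : 2 * ((d + 1) * d) * (n * (n * (2 * a * (2 * b) * w))) ≤
      (d + 1) ^ 2 * (8 * (n + 1) ^ 2 * (a + 1) * (b + 1)) * w := by
    calc 2 * ((d + 1) * d) * (n * (n * (2 * a * (2 * b) * w)))
        = ((d + 1) * d) * (8 * (n * n) * a * b) * w := by ring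
      _ ≤ (d + 1) ^ 2 * (8 * (n + 1) ^ 2 * (a + 1) * (b + 1)) * w := by
          refine Nat.mul_le_mul_right _ (Nat.mul_le_mul ?_ ?_)
          · nlinarith
          · refine Nat.mul_le_mul (Nat.mul_le_mul (Nat.mul_le_mul le_rfl ?_) (by omega)) (by omega)
            nlinarith
  calc _ ≤ (d + 1) ^ 2 * (8 * (n + 1) ^ 2 * (a + 1) * (b + 1)) * m +
        (d + 1) ^ 2 * (8 * (n + 1) ^ 2 * (a + 1) * (b + 1)) * w := Nat.add_le_add h5 h6
    _ = _ := by ring

theorem wz_mH (c : Ctx) (s : St) (d : ℕ) : wz (mH c s d) ≤ c.1.length * (c.1.length *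
    ((d + 1) ^ 2 * (8 * (c.1.length + 1) ^ 2 * (wz c.2.1 + 1) * (wz c.2.2 + 1)) *
      (nz s.1 + wz s.2))) := by
  have h := nz_dsum c.1 (fun i l => mE c s d i l) _ (fun i _ l _ => nz_mE c s d i l)
  refine le_trans (le_of_eq ?_) h
  rw [wz, mH, dsum, nz_sum, List.map_flatMap, List.map_flatMap]
  simp only [List.map_map]
  rfl

theorem nst_mStep (c : Ctx) (s : St) (d : ℕ) : nst (mStep c s d) ≤ gf c d * nst s := by
  have h1 := wz_mH c s d
  have h2 := nz_dsum c.1 (fun i j => zmul (lks c.2.2 i j) (lk (mH c s d) j i))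
    (2 * wz c.2.2 * wz (mH c s d)) (fun i _ j _ => by
      rw [nz_mul]
      exact Nat.mul_le_mul (nz_lks _ _ _) (nz_lk _ _ _))
  have e1 : nst (mStep c s d) = nz (dsum c.1 fun i j => zmul (lks c.2.2 i j)
    (lk (mH c s d) j i)) + wz (mH c s d) + 1 := rfl
  rw [e1]
  unfold nst gf
  set n := c.1.length with hn
  set a := wz c.2.1
  set b := wz c.2.2
  set w := wz s.2
  set m := nz s.1
  set W := wz (mH c s d)
  set X := (d + 1) ^ 2 * (8 * (n + 1) ^ 2 * (a + 1) * (b + 1)) * (m + w)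
  have h3 : W ≤ (n + 1) ^ 2 * X := by
    refine h1.trans ?_
    rw [← mul_assoc]
    exact Nat.mul_le_mul_right _ (by nlinarith)
  have h4 : n * (n * (2 * b * W)) + W ≤ 2 * ((n + 1) ^ 2 * (b + 1)) * W := by
    have : n * n * b + 1 ≤ (n + 1) ^ 2 * (b + 1) := by nlinarith [Nat.zero_le (n * b)]
    nlinarith
  calc nz (dsum c.1 fun i j => zmul (lks c.2.2 i j) (lk (mH c s d) j i)) + W + 1
      ≤ n * (n * (2 * b * W)) + W + 1 := by omega
    _ ≤ 2 * ((n + 1) ^ 2 * (b + 1)) * W + 1 := by omega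
    _ ≤ 2 * ((n + 1) ^ 2 * (b + 1)) * ((n + 1) ^ 2 * X) + 1 :=
        Nat.add_le_add_right (Nat.mul_le_mul_left _ h3) 1
    _ = 16 * (n + 1) ^ 6 * (a + 1) * (b + 1) ^ 2 * (d + 1) ^ 2 * (m + w) + 1 := by
        simp only [X]
        ring
    _ ≤ 16 * (n + 1) ^ 6 * (a + 1) * (b + 1) ^ 2 * (d + 1) ^ 2 * (m + w + 1) := by
        have h5 : 1 ≤ 16 * (n + 1) ^ 6 * (a + 1) * (b + 1) ^ 2 * (d + 1) ^ 2 :=
          Nat.one_le_iff_ne_zero.2 (by positivity)
        rw [mul_add _ (m + w) 1, mul_one]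
        omega

theorem gf_le (c : Ctx) (d : ℕ) :
    gf c d ≤ 2 ^ (4 + 6 * c.1.length + sz c.2.1 + 2 * sz c.2.2 + 2 * sz d) := by
  have h1 : (c.1.length + 1) ^ 6 ≤ 2 ^ (6 * c.1.length) := by
    rw [mul_comm 6, pow_mul]
    exact Nat.pow_le_pow_left (Nat.lt_two_pow_self) 6
  have h2 := wz_lt c.2.1
  have h3 : (wz c.2.2 + 1) ^ 2 ≤ 2 ^ (2 * sz c.2.2) := by
    rw [mul_comm 2 (sz c.2.2), pow_mul]
    exact Nat.pow_le_pow_left (wz_lt _) 2
  have h4 : (d + 1) ^ 2 ≤ 2 ^ (2 * sz d) := by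
    rw [mul_comm 2 (sz d), pow_mul]
    refine Nat.pow_le_pow_left ?_ 2
    rw [sz_nat]
    exact Nat.lt_size_self d
  unfold gf
  calc 16 * (c.1.length + 1) ^ 6 * (wz c.2.1 + 1) * (wz c.2.2 + 1) ^ 2 * (d + 1) ^ 2
      ≤ 2 ^ 4 * 2 ^ (6 * c.1.length) * 2 ^ sz c.2.1 * 2 ^ (2 * sz c.2.2) * 2 ^ (2 * sz d) := by
        gcongr
        norm_num
    _ = _ := by rw [← pow_add, ← pow_add, ← pow_add, ← pow_add]

theorem nst_momL (c : Ctx) (l : List ℕ) (s : St) : nst (momL c l s) ≤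
    2 ^ (l.length * (4 + 6 * c.1.length + sz c.2.1 + 2 * sz c.2.2) + 2 * sz l) * nst s := by
  induction l generalizing s with
  | nil => simp [momL]
  | cons d l ih =>
    have h1 : momL c (d :: l) s = momL c l (mStep c s d) := rfl
    rw [h1]
    refine (ih _).trans ?_
    have h2 := (nst_mStep c s d).trans (Nat.mul_le_mul_right _ (gf_le c d))
    refine (Nat.mul_le_mul_left _ h2).trans ?_
    rw [← mul_assoc, ← pow_add]
    refine Nat.mul_le_mul_right _ (Nat.pow_le_pow_right (by norm_num) ?_)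
    rw [List.length_cons, sz_cons]
    ring_nf
    omega

theorem sz_mH (c : Ctx) (s : St) (d E : ℕ) (h : nst (mStep c s d) ≤ 2 ^ E) :
    sz (mH c s d) ≤ c.1.length * (c.1.length * (12 * sz c.1 + 6 * E + 20)) := by
  have h1 : ∀ i ∈ c.1, ∀ l ∈ c.1, sz (mE c s d i l) ≤ 3 * E + 1 := by
    intro i hi l hl
    refine sz_of_nz ?_
    have h2 : nz (mE c s d i l) ≤ wz (mH c s d) := by
      rw [wz, mH, List.map_flatMap, sum_flatMap']
      have h3 : nz (mE c s d i l) ≤ (List.map (fun e : (ℕ × ℕ) × In => nz e.2)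
          (c.1.map fun l => ((i, l), mE c s d i l))).sum := by
        rw [List.map_map]
        exact List.single_le_sum (fun _ _ => Nat.zero_le _) _
          (List.mem_map.2 ⟨l, hl, rfl⟩)
      refine h3.trans ?_
      exact List.single_le_sum (fun _ _ => Nat.zero_le _) _ (List.mem_map.2 ⟨i, hi, rfl⟩)
    have h4 : nst (mStep c s d) = nz (mStep c s d).1 + wz (mH c s d) + 1 := rfl
    omega
  have h5 := sz_flatMap_le (fun i => c.1.map fun l => ((i, l), mE c s d i l)) c.1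
    (c.1.length * (12 * sz c.1 + 6 * E + 20)) (by
    intro i hi
    have h6 := sz_map_le (fun l => ((i, l), mE c s d i l)) c.1 (6 * sz c.1 + 3 * E + 9) (by
      intro l hl
      have h7 := h1 i hi l hl
      have h8 := sz_mem_le hi
      have h9 := sz_mem_le hl
      simp only [sz_pair]
      omega)
    refine h6.trans (Nat.mul_le_mul_left _ (by omega)))
  exact h5

theorem momL_snd (c : Ctx) (l : List ℕ) (s : St) : sz (momL c l s).2 ≤ sz s.2 +
    c.1.length * (c.1.length * (12 * sz c.1 + 6 * (l.length * (4 + 6 * c.1.length + sz c.2.1 +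
      2 * sz c.2.2) + 2 * sz l + sz s + 1) + 20)) := by
  rcases List.eq_nil_or_concat l with rfl | ⟨l', d, rfl⟩
  · simp [momL]
  · rw [List.concat_eq_append]
    have h1 : momL c (l' ++ [d]) s = mStep c (momL c l' s) d := by
      rw [momL, List.foldl_append]
      rfl
    have h2 := nst_momL c (l' ++ [d]) s
    have h3 : nst s ≤ 2 ^ (sz s + 1) := by
      obtain ⟨a, H⟩ := s
      have h4 := nz_lt a
      have h5 := wz_lt H
      simp only [nst, sz_pair]
      have h6 : 2 ^ sz a ≤ 2 ^ (2 * sz a + 1 + sz H) := Nat.pow_le_pow_right (by norm_num) (by omega)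
      have h7 : 2 ^ sz H ≤ 2 ^ (2 * sz a + 1 + sz H) := Nat.pow_le_pow_right (by norm_num) (by omega)
      rw [pow_succ]
      omega
    have h8 : nst (mStep c (momL c l' s) d) ≤ 2 ^ ((l' ++ [d]).length *
        (4 + 6 * c.1.length + sz c.2.1 + 2 * sz c.2.2) + 2 * sz (l' ++ [d]) + sz s + 1) := by
      rw [← h1]
      refine h2.trans ((Nat.mul_le_mul_left _ h3).trans ?_)
      rw [← pow_add]
      exact Nat.pow_le_pow_right (by norm_num) (by omega)
    have h9 := sz_mH c (momL c l' s) d _ h8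
    rw [h1]
    have h10 : (mStep c (momL c l' s) d).2 = mH c (momL c l' s) d := rfl
    rw [h10]
    omega

theorem momL_fst (c : Ctx) (l : List ℕ) (s : St) : sz (momL c l s).1 ≤
    3 * (l.length * (4 + 6 * c.1.length + sz c.2.1 + 2 * sz c.2.2) + 2 * sz l + sz s + 1) + 1 := by
  have h2 := nst_momL c l s
  have h3 : nst s ≤ 2 ^ (sz s + 1) := by
    obtain ⟨a, H⟩ := s
    have h4 := nz_lt a
    have h5 := wz_lt H
    simp only [nst, sz_pair]
    have h6 : 2 ^ sz a ≤ 2 ^ (2 * sz a + 1 + sz H) := Nat.pow_le_pow_right (by norm_num) (by omega)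
    have h7 : 2 ^ sz H ≤ 2 ^ (2 * sz a + 1 + sz H) := Nat.pow_le_pow_right (by norm_num) (by omega)
    rw [pow_succ]
    omega
  refine sz_of_nz ?_
  have h4 : nst (momL c l s) = nz (momL c l s).1 + wz (momL c l s).2 + 1 := rfl
  have h5 := h2.trans (Nat.mul_le_mul_left _ h3)
  rw [← pow_add] at h5
  have h6 : l.length * (4 + 6 * c.1.length + sz c.2.1 + 2 * sz c.2.2) + 2 * sz l + (sz s + 1) =
    l.length * (4 + 6 * c.1.length + sz c.2.1 + 2 * sz c.2.2) + 2 * sz l + sz s + 1 := by ring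
  rw [h6] at h5
  omega

/-! ## Polynomial time -/

section

variable {α : Type} [N487b59b3 α]

theorem FP.dsum {N : α → List ℕ} {F : (α × ℕ) × ℕ → In} (hN : FP N) (hF : FP F) :
    FP fun a => PQE.dsum (N a) fun i j => F ((a, i), j) := by
  have h1 : FP fun q : α × ℕ => (N q.1).map fun j => F (q, j) :=
    fp_map (hN.comp FP.fst) hF
  exact FP.zsum (fp_flatMap hN h1)

theorem FP.mE {c : α → Ctx} {s : α → St} {d i l : α → ℕ} (hc : FP c) (hs : FP s) (hd : FP d)
    (hi : FP i) (hl : FP l) : FP fun a => PQE.mE (c a) (s a) (d a) (i a) (l a) := by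
  have h1 : FP fun q : (α × ℕ) × ℕ => c q.1.1 := hc.comp (by fun_prop)
  have h2 : FP fun q : (α × ℕ) × ℕ => s q.1.1 := hs.comp (by fun_prop)
  have h3 : FP fun q : (α × ℕ) × ℕ => i q.1.1 := hi.comp (by fun_prop)
  have h4 : FP fun q : (α × ℕ) × ℕ => l q.1.1 := hl.comp (by fun_prop)
  have h5 : FP fun q : (α × ℕ) × ℕ => PQE.zmul (PQE.zmul (PQE.lks (c q.1.1).2.1 (i q.1.1) q.1.2)
      (PQE.lks (c q.1.1).2.2 q.1.2 q.2)) (PQE.lk (s q.1.1).2 q.2 (l q.1.1)) := by fun_prop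
  have h6 := FP.dsum (N := fun a => (c a).1) (by fun_prop) h5
  have h7 : FP fun a => ((d a + 1, 0) : In) :=
    FP.pair (FP.natAdd hd (FP.const 1)) (FP.const 0)
  have h8 : FP fun a => ((2 * ((d a + 1) * d a), 0) : In) :=
    FP.pair (FP.natMul (FP.const 2) (FP.natMul (FP.natAdd hd (FP.const 1)) hd)) (FP.const 0)
  unfold PQE.mE
  exact FP.zadd (FP.zmul h7 (FP.zmul (by fun_prop) (by fun_prop))) (FP.zmul h8 h6)

theorem FP.mStep : FP fun p : (Ctx × St) × ℕ => PQE.mStep p.1.1 p.1.2 p.2 := by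
  have h1 : FP fun p : (Ctx × St) × ℕ => PQE.mH p.1.1 p.1.2 p.2 := by
    have h2 : FP fun q : (((Ctx × St) × ℕ) × ℕ) × ℕ => (((q.1.2, q.2),
        PQE.mE q.1.1.1.1 q.1.1.1.2 q.1.1.2 q.1.2 q.2) : (ℕ × ℕ) × In) :=
      FP.pair (FP.pair (by fun_prop) (by fun_prop)) (FP.mE (by fun_prop) (by fun_prop)
        (by fun_prop) (by fun_prop) (by fun_prop))
    have h3 : FP fun q : ((Ctx × St) × ℕ) × ℕ => q.1.1.1.1.map fun l =>
        (fun q : (((Ctx × St) × ℕ) × ℕ) × ℕ => (((q.1.2, q.2),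
          PQE.mE q.1.1.1.1 q.1.1.1.2 q.1.1.2 q.1.2 q.2) : (ℕ × ℕ) × In)) (q, l) :=
      fp_map (by fun_prop) h2
    exact fp_flatMap (f := fun p : (Ctx × St) × ℕ => p.1.1.1) (by fun_prop) h3
  have h4 : FP fun q : (((Ctx × St) × ℕ) × ℕ) × ℕ => PQE.zmul (PQE.lks q.1.1.1.1.2.2 q.1.2 q.2)
      (PQE.lk (PQE.mH q.1.1.1.1 q.1.1.1.2 q.1.1.2) q.2 q.1.2) := by
    have h5 : FP fun q : (((Ctx × St) × ℕ) × ℕ) × ℕ => PQE.mH q.1.1.1.1 q.1.1.1.2 q.1.1.2 :=
      h1.comp (f := fun q : (((Ctx × St) × ℕ) × ℕ) × ℕ => ((q.1.1.1.1, q.1.1.1.2), q.1.1.2))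
        (by fun_prop)
    fun_prop
  have h6 := FP.dsum (N := fun p : (Ctx × St) × ℕ => p.1.1.1) (by fun_prop) h4
  exact h6.pair h1

theorem foldl_ctx (c : Ctx) (l : List ℕ) (s : St) :
    l.foldl (fun (p : Ctx × St) (d : ℕ) => (p.1, mStep p.1 p.2 d)) (c, s) = (c, momL c l s) := by
  induction l generalizing s with
  | nil => rfl
  | cons d l ih =>
    rw [List.foldl_cons]
    exact ih _

theorem FP.momL : FP fun p : List ℕ × (Ctx × St) => (p.2.1, PQE.momL p.2.1 p.1 p.2.2) := by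
  have h1 : FP fun p : List ℕ × (Ctx × St) =>
      p.1.foldl (fun (p : Ctx × St) (d : ℕ) => (p.1, PQE.mStep p.1 p.2 d)) p.2 := by
    refine FP.foldl (g := fun (p : Ctx × St) (d : ℕ) => (p.1, PQE.mStep p.1 p.2 d))
      (FP.pair (by fun_prop) FP.mStep)
      (B := fun n => 2 * n + 1 + (2 * (3 * (n * (4 + 6 * n + n + 2 * n) + 2 * n + n + 1) + 1) + 1 +
        (n + n * (n * (12 * n + 6 * (n * (4 + 6 * n + n + 2 * n) + 2 * n + n + 1) + 20)))))
      (by fun_prop) ?_
    rintro l ⟨c, s⟩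
    rw [foldl_ctx]
    have h2 := momL_fst c l s
    have h3 := momL_snd c l s
    have h0 := length_le_sz l
    have h4 := length_le_sz c.1
    obtain ⟨N, A, B⟩ := c
    obtain ⟨a, H⟩ := s
    rcases hq : PQE.momL (N, (A, B)) l (a, H) with ⟨a', H'⟩
    rw [hq] at h2 h3
    simp only at h2 h3 h4
    generalize hS : sz l + sz ((N, (A, B)), (a, H)) = S
    simp only [sz_pair] at hS h2 h3 ⊢
    have b1 : l.length * (4 + 6 * N.length + sz A + 2 * sz B) + 2 * sz l + (2 * sz a + 1 + sz H) + 1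
        ≤ S * (4 + 6 * S + S + 2 * S) + 2 * S + S + 1 := by
      have : l.length * (4 + 6 * N.length + sz A + 2 * sz B) ≤ S * (4 + 6 * S + S + 2 * S) :=
        Nat.mul_le_mul (by omega) (by omega)
      omega
    have b2 : N.length * (N.length * (12 * sz N + 6 * (l.length * (4 + 6 * N.length + sz A +
        2 * sz B) + 2 * sz l + (2 * sz a + 1 + sz H) + 1) + 20)) ≤
        S * (S * (12 * S + 6 * (S * (4 + 6 * S + S + 2 * S) + 2 * S + S + 1) + 20)) := by
      refine Nat.mul_le_mul (by omega) (Nat.mul_le_mul (by omega) ?_)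
      omega
    omega
  refine (congrArg FP (funext fun p => ?_)).mp h1
  exact foldl_ctx _ _ _

theorem FP.momZ {β : Type} [N487b59b3 β] [Inhabited β] {c : α → Ctx} {D : α → List β} (hc : FP c)
    (hD : FP D) : FP fun a => PQE.momZ (c a) (D a).length := by
  have h1 := FP.momL.comp (f := fun a => (List.range (D a).length, (c a, (((2, 0), []) : St))))
    (FP.pair (FP.range hD) (FP.pair hc (FP.const _)))
  exact h1.snd'.fst'

end

end Pool.Agent.PQE
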