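import Pool.Agent.PQE.Trunc

set_option autoImplicit false

/-!
# Homogenisation

The coefficients of small degree of a dehomogenised polynomial.
-/

open scoped BigOperators

namespace Pool.Agent.PQE

open MvPolynomial

/-- the dehomogenised variables -/
noncomputable def vv : ℕ → MvPolynomial ℕ ℚ
  | 0 => 1
  | i + 1 => X i

/-- the exponents without the first one -/
noncomputable def tl (a : ℕ →₀ ℕ) : ℕ →₀ ℕ :=
  a.comapDomain Nat.succ (Nat.succ_injective.injOn)

theorem tl_apply (a : ℕ →₀ ℕ) (i : ℕ) : tl a i = a (i + 1) := rfl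

theorem tl_single_zero (k : ℕ) : tl (Finsupp.single 0 k) = 0 := by
  ext i
  rw [tl_apply, Finsupp.single_apply, if_neg (by omega)]
  rfl

theorem tl_single_succ (i k : ℕ) : tl (Finsupp.single (i + 1) k) = Finsupp.single i k := by
  ext j
  rw [tl_apply, Finsupp.single_apply, Finsupp.single_apply]
  congr 1
  simp

theorem tl_add (a b : ℕ →₀ ℕ) : tl (a + b) = tl a + tl b := by
  ext i
  rfl

theorem aeval_vv_monomial (a : ℕ →₀ ℕ) (c : ℚ) :
    aeval vv (monomial a c) = monomial (tl a) c := by
  induction a using Finsupp.induction generalizing c with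
  | zero =>
    rw [show tl 0 = 0 from by ext i; rfl]
    exact (aeval vv).commutes c
  | single_add i k f _ _ ih =>
    rw [show (monomial (Finsupp.single i k + f)) c = monomial (Finsupp.single i k) (1 : ℚ)
      * monomial f c by rw [monomial_mul, one_mul], map_mul, ih, tl_add]
    have h1 : aeval vv (monomial (Finsupp.single i k) (1 : ℚ))
        = monomial (tl (Finsupp.single i k)) (1 : ℚ) := by
      rw [← X_pow_eq_monomial, map_pow, aeval_X]
      cases i with
      | zero =>
        rw [tl_single_zero, vv, one_pow]
        rfl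
      | succ i => rw [tl_single_succ, vv, X_pow_eq_monomial]
    rw [h1, monomial_mul, one_mul]

theorem degree_tl (a : ℕ →₀ ℕ) : a.degree = a 0 + (tl a).degree := by
  induction a using Finsupp.induction with
  | zero => simp [show tl 0 = 0 from by ext i; rfl]
  | single_add i k f _ _ ih =>
    rw [map_add, ih, tl_add, map_add, Finsupp.add_apply]
    cases i with
    | zero =>
      rw [tl_single_zero, Finsupp.single_apply, if_pos rfl, Finsupp.degree_single,
        show Finsupp.degree (0 : ℕ →₀ ℕ) = 0 from (Finsupp.degree).map_zero]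
      omega
    | succ i =>
      rw [tl_single_succ, Finsupp.single_apply, if_neg (by omega), Finsupp.degree_single,
        Finsupp.degree_single]
      omega

theorem coeff_aeval_vv (F : MvPolynomial ℕ ℚ) (b : ℕ →₀ ℕ) :
    (aeval vv F).coeff b = ∑ a ∈ F.support, if tl a = b then F.coeff a else 0 := by
  conv_lhs => rw [F.as_sum]
  rw [map_sum, coeff_sum]
  refine Finset.sum_congr rfl fun a _ => ?_
  rw [aeval_vv_monomial, coeff_monomial]

/-- the coefficients of small degree vanish if and only if the coefficients of large degree in the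
homogenising variable do -/
theorem hom_crit {F : MvPolynomial ℕ ℚ} {n : ℕ} (hF : F.IsHomogeneous n) (M : ℕ) :
    (∀ b : ℕ →₀ ℕ, b.degree ≤ M → (aeval vv F).coeff b = 0) ↔
      ∀ a : ℕ →₀ ℕ, n - M ≤ a 0 → F.coeff a = 0 := by
  have hd : ∀ a : ℕ →₀ ℕ, F.coeff a ≠ 0 → a 0 + (tl a).degree = n := fun a ha => by
    rw [← degree_tl]
    by_contra h
    exact ha (hF.coeff_eq_zero h)
  constructor
  · intro h a ha
    by_contra h1
    have h2 := hd a h1
    have h3 := h (tl a) (by omega)
    rw [coeff_aeval_vv, Finset.sum_eq_single_of_mem a (mem_support_iff.2 h1), if_pos rfl] at h3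
    · exact h1 h3
    · intro a' ha' hne
      rw [if_neg]
      intro h4
      have h5 := hd a' (mem_support_iff.1 ha')
      rw [h4] at h5
      apply hne
      ext i
      cases i with
      | zero => omega
      | succ i => rw [← tl_apply, ← tl_apply, h4]
  · intro h b hb
    rw [coeff_aeval_vv]
    refine Finset.sum_eq_zero fun a ha => ?_
    by_cases h1 : tl a = b
    · rw [if_pos h1]
      apply h
      have h2 := hd a (mem_support_iff.1 ha)
      rw [h1] at h2
      omega
    · rw [if_neg h1]

theorem quad_isHomogeneous {σ : Type*} (N : Finset σ) (a : σ → σ → ℚ) :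
    (quad N a).IsHomogeneous 2 := by
  refine IsHomogeneous.sum _ _ _ fun i _ => IsHomogeneous.sum _ _ _ fun j _ => ?_
  have h := ((isHomogeneous_C σ (a i j)).mul ((isHomogeneous_X ℚ i).mul (isHomogeneous_X ℚ j)))
  exact h

/-- the test: one rational number decides whether all coefficients of degree at most `M` vanish -/
theorem test_crit {F : MvPolynomial ℕ ℚ} {n : ℕ} (hF : F.IsHomogeneous n) (M : ℕ) :
    (∀ b : ℕ →₀ ℕ, b.degree ≤ M → (aeval vv F).coeff b = 0) ↔
      ∑ w ∈ Finset.range (n - M + 1), ((-1 : ℚ) ^ (n - M - w)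
        / (w.factorial * (n - M - w).factorial)) * fis (scale 0 ((w : ℚ) + 1) F) F = 0 := by
  rw [hom_crit hF, diff_crit]

end Pool.Agent.PQE
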