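import Pool.Agent.PQE.ZMom
import Pool.Agent.PQE.Hom

set_option autoImplicit false

/-!
Sparse quadratic forms over the rational numbers: clearing of denominators; lists without
repetition.
-/

namespace Pool.Agent.PQE

open N487b59b3 N68a2faeb Pool.Agent.Helper22 Pool.Agent.Helper6.WB Pool.Agent.Helper6.SP
open MvPolynomial

/-- sparse rational matrices -/
abbrev Qd := List ((ℕ × ℕ) × El)

/-- multiplication of an entry -/
def scz (d : ℕ) (x : (ℕ × ℕ) × In) : (ℕ × ℕ) × In := (x.1, (x.2.1 * d, x.2.2 * d))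

/-- a step of the clearing of denominators -/
def clrStep (s : Qz × ℕ) (e : (ℕ × ℕ) × El) : Qz × ℕ :=
  (s.1.map (scz e.2.2) ++ [(e.1, (e.2.1.1 * s.2, e.2.1.2 * s.2))], s.2 * e.2.2)

/-- clearing of denominators -/
def clr (q : Qd) : Qz × ℕ := q.foldl clrStep ([], 1)

section

variable {V : Type*} [AddCommGroup V] [Module ℚ V] (φ : ℕ × ℕ → V)

/-- value of an integral form -/
def zsv (A : Qz) : V := (A.map fun x => ((zv x.2 : ℤ) : ℚ) • φ x.1).sum

/-- value of a rational form -/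
def qsv (q : Qd) : V := (q.map fun x => toQ x.2 • φ x.1).sum

theorem zsv_nil : zsv φ [] = 0 := rfl

theorem zsv_cons (x : (ℕ × ℕ) × In) (A : Qz) :
    zsv φ (x :: A) = ((zv x.2 : ℤ) : ℚ) • φ x.1 + zsv φ A := by
  rw [zsv, List.map_cons, List.sum_cons]
  rfl

theorem zsv_append (A B : Qz) : zsv φ (A ++ B) = zsv φ A + zsv φ B := by
  rw [zsv, List.map_append, List.sum_append]
  rfl

theorem qsv_cons (x : (ℕ × ℕ) × El) (A : Qd) : qsv φ (x :: A) = toQ x.2 • φ x.1 + qsv φ A := by
  rw [qsv, List.map_cons, List.sum_cons]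
  rfl

theorem zsv_scz (d : ℕ) (A : Qz) : zsv φ (A.map (scz d)) = (d : ℚ) • zsv φ A := by
  induction A with
  | nil => simp [zsv]
  | cons x A ih =>
    rw [List.map_cons, zsv_cons, ih, zsv_cons, smul_add, smul_smul]
    congr 2
    simp only [scz, zv]
    push_cast
    ring

theorem clr_fold (q : Qd) (hq : ∀ x ∈ q, x.2.2 ≠ 0) (s : Qz × ℕ) (hs : s.2 ≠ 0) :
    (q.foldl clrStep s).2 ≠ 0 ∧ ((((q.foldl clrStep s).2 : ℕ) : ℚ)⁻¹) • zsv φ (q.foldl clrStep s).1 =
      ((s.2 : ℚ)⁻¹) • zsv φ s.1 + qsv φ q := by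
  induction q generalizing s with
  | nil => exact ⟨hs, by simp [qsv]⟩
  | cons x q ih =>
    rw [List.foldl_cons]
    have hx := hq x List.mem_cons_self
    obtain ⟨h1, h2⟩ := ih (fun y hy => hq y (List.mem_cons_of_mem _ hy)) (clrStep s x)
      (mul_ne_zero hs hx)
    refine ⟨h1, ?_⟩
    rw [h2, qsv_cons, ← add_assoc]
    congr 1
    have h3 : (s.2 : ℚ) ≠ 0 := Nat.cast_ne_zero.2 hs
    have h4 : (x.2.2 : ℚ) ≠ 0 := Nat.cast_ne_zero.2 hx
    simp only [clrStep]
    rw [zsv_append, zsv_scz, smul_add, smul_smul, zsv_cons, zsv_nil, add_zero, smul_smul]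
    congr 2
    · push_cast
      field_simp
    · simp only [zv, toQ]
      push_cast
      field_simp

theorem clr_spec (q : Qd) (hq : ∀ x ∈ q, x.2.2 ≠ 0) :
    (clr q).2 ≠ 0 ∧ zsv φ (clr q).1 = (((clr q).2 : ℕ) : ℚ) • qsv φ q := by
  obtain ⟨h1, h2⟩ := clr_fold φ q hq ([], 1) one_ne_zero
  refine ⟨h1, ?_⟩
  rw [zsv_nil, smul_zero, zero_add] at h2
  have h3 : (((clr q).2 : ℕ) : ℚ) ≠ 0 := Nat.cast_ne_zero.2 h1
  rw [← h2, smul_smul]
  change _ = ((((clr q).2 : ℕ) : ℚ) * (((clr q).2 : ℕ) : ℚ)⁻¹) • zsv φ (clr q).1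
  rw [mul_inv_cancel₀ h3, one_smul]

end

/-! ## Size -/

/-- the size of the indices -/
def szi (A : Qz) : ℕ := (A.map fun x => 4 * sz x.1 + 1).sum

theorem sz_of_le {A : Qz} {E : ℕ} (h : ∀ x ∈ A, nz x.2 < 2 ^ E) :
    sz A ≤ szi A + A.length * (6 * E + 5) := by
  induction A with
  | nil => simp [szi]
  | cons x A ih =>
    have h1 := ih fun y hy => h y (List.mem_cons_of_mem _ hy)
    have h2 := sz_of_nz (h x List.mem_cons_self)
    obtain ⟨⟨i, j⟩, a⟩ := x
    rw [sz_cons, List.length_cons]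
    simp only [szi, List.map_cons, List.sum_cons, sz_pair] at h1 h2 ⊢
    have h3 : (A.length + 1) * (6 * E + 5) = A.length * (6 * E + 5) + (6 * E + 5) := by ring
    rw [h3]
    omega

theorem szi_le (A : Qz) : szi A ≤ 4 * sz A := by
  induction A with
  | nil => simp [szi]
  | cons x A ih =>
    obtain ⟨⟨i, j⟩, a⟩ := x
    simp only [szi, List.map_cons, List.sum_cons] at ih ⊢
    simp only [sz_cons, sz_pair]
    omega

/-- the size of the indices -/
def sziq (A : Qd) : ℕ := (A.map fun x => 4 * sz x.1 + 1).sum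

theorem sziq_le (A : Qd) : sziq A ≤ 4 * sz A := by
  induction A with
  | nil => simp [sziq]
  | cons x A ih =>
    obtain ⟨⟨i, j⟩, a⟩ := x
    simp only [sziq, List.map_cons, List.sum_cons] at ih ⊢
    simp only [sz_cons, sz_pair]
    omega

theorem clr_szi (q : Qd) (s : Qz × ℕ) : szi (q.foldl clrStep s).1 = szi s.1 + sziq q ∧
    (q.foldl clrStep s).1.length = s.1.length + q.length := by
  induction q generalizing s with
  | nil => simp [sziq]
  | cons x q ih =>
    rw [List.foldl_cons, (ih _).1, (ih _).2]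
    simp only [clrStep, szi, sziq, List.map_append, List.map_map, List.map_cons, List.map_nil,
      List.sum_append, List.sum_cons, List.sum_nil, List.length_append, List.length_map,
      List.length_cons, List.length_nil]
    refine ⟨?_, by omega⟩
    have h : (List.map ((fun x : (ℕ × ℕ) × In => 4 * sz x.1 + 1) ∘ scz x.2.2) s.1) =
        s.1.map fun x => 4 * sz x.1 + 1 := List.map_congr_left fun y _ => rfl
    rw [h]
    omega

theorem clr_nz (q : Qd) (s : Qz × ℕ) (B : ℕ) (hs : (∀ x ∈ s.1, nz x.2 ≤ B) ∧ s.2 ≤ B) :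
    (∀ x ∈ (q.foldl clrStep s).1, nz x.2 ≤ B * 2 ^ sz q) ∧
      (q.foldl clrStep s).2 ≤ B * 2 ^ sz q := by
  induction q generalizing s B with
  | nil => simpa using hs
  | cons x q ih =>
    rw [List.foldl_cons]
    have h1 := ih (clrStep s x) (B * 2 ^ (2 * sz x)) ?_
    · rw [mul_assoc, ← pow_add] at h1
      have h2 : B * 2 ^ (2 * sz x + sz q) ≤ B * 2 ^ sz (x :: q) :=
        Nat.mul_le_mul le_rfl (Nat.pow_le_pow_right (by norm_num) (by rw [sz_cons]; omega))
      exact ⟨fun y hy => (h1.1 y hy).trans h2, h1.2.trans h2⟩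
    · obtain ⟨⟨i, j⟩, ⟨⟨a, b⟩, c⟩⟩ := x
      have h3 := nz_lt (a, b)
      have h4 : c < 2 ^ sz c := by
        rw [sz_nat]
        exact Nat.lt_size_self c
      have h5 : 2 ^ sz ((a, b) : In) ≤ 2 ^ (2 * sz (((i, j), ((a, b), c)) : (ℕ × ℕ) × El)) :=
        Nat.pow_le_pow_right (by norm_num) (by simp only [sz_pair]; omega)
      have h6 : 2 ^ sz c ≤ 2 ^ (2 * sz (((i, j), ((a, b), c)) : (ℕ × ℕ) × El)) :=
        Nat.pow_le_pow_right (by norm_num) (by simp only [sz_pair]; omega)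
      simp only [clrStep]
      refine ⟨fun y hy => ?_, Nat.mul_le_mul hs.2 (by omega)⟩
      rcases List.mem_append.1 hy with hy | hy
      · obtain ⟨z, hz, rfl⟩ := List.mem_map.1 hy
        have h7 : nz (scz c z).2 = nz z.2 * c := by
          simp only [scz, nz]
          ring
        rw [h7]
        exact Nat.mul_le_mul (hs.1 z hz) (by omega)
      · rw [List.mem_singleton] at hy
        rw [hy]
        have h7 : nz (a * s.2, b * s.2) = s.2 * nz (a, b) := by
          simp only [nz]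
          ring
        simp only [h7]
        exact Nat.mul_le_mul hs.2 (by omega)

section

variable {α : Type} [N487b59b3 α]

instance : Inhabited ((ℕ × ℕ) × El) := ⟨((0, 0), ((0, 0), 1))⟩

theorem FP.scz : FP fun q : ℕ × ((ℕ × ℕ) × In) => PQE.scz q.1 q.2 := by
  unfold PQE.scz
  fun_prop

theorem fp_clrStep : FP fun p : (Qz × ℕ) × ((ℕ × ℕ) × El) => clrStep p.1 p.2 := by
  unfold clrStep
  have h1 : FP fun p : (Qz × ℕ) × ((ℕ × ℕ) × El) => p.1.1.map (PQE.scz p.2.2.2) := by
    have h2 : FP fun q : ((Qz × ℕ) × ((ℕ × ℕ) × El)) × ((ℕ × ℕ) × In) =>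
        PQE.scz q.1.2.2.2 q.2 :=
      FP.scz.comp (f := fun q : ((Qz × ℕ) × ((ℕ × ℕ) × El)) × ((ℕ × ℕ) × In) =>
        (q.1.2.2.2, q.2)) (by fun_prop)
    exact fp_map (by fun_prop) h2
  exact FP.pair (FP.append h1 (FP.cons (by fun_prop) (FP.const []))) (by fun_prop)

theorem fp_clr' : FP fun p : Qd × (Qz × ℕ) => p.1.foldl clrStep p.2 := by
  refine FP.foldl (g := clrStep) fp_clrStep
    (B := fun n => 2 * (4 * n + 4 * n + (n + n) * (6 * (n + n) + 11)) + 1 + (n + n + n + n))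
    (by fun_prop) ?_
  rintro l ⟨A, P⟩
  obtain ⟨h1, h2⟩ := clr_szi l (A, P)
  have h3 : (∀ x ∈ A, nz x.2 ≤ 2 ^ sz (A, P)) ∧ P ≤ 2 ^ sz (A, P) := by
    rw [sz_pair]
    constructor
    · intro x hx
      have h4 := wz_lt A
      have h5 : nz x.2 ≤ wz A := List.single_le_sum (fun _ _ => Nat.zero_le _) _
        (List.mem_map.2 ⟨x, hx, rfl⟩)
      have h6 : 2 ^ sz A ≤ 2 ^ (2 * sz A + 1 + sz P) :=
        Nat.pow_le_pow_right (by norm_num) (by omega)
      omega
    · have h4 : P < 2 ^ sz P := by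
        rw [sz_nat]
        exact Nat.lt_size_self P
      have h6 : 2 ^ sz P ≤ 2 ^ (2 * sz A + 1 + sz P) :=
        Nat.pow_le_pow_right (by norm_num) (by omega)
      omega
  obtain ⟨h4, h5⟩ := clr_nz l (A, P) _ h3
  rw [← pow_add] at h4 h5
  rcases hq : l.foldl clrStep (A, P) with ⟨A', P'⟩
  rw [hq] at h1 h2 h4 h5
  simp only at h1 h2 h4 h5
  have h6 : sz A' ≤ szi A' + A'.length * (6 * (sz (A, P) + sz l + 1) + 5) :=
    sz_of_le fun x hx => (h4 x hx).trans_lt (Nat.pow_lt_pow_right (by norm_num) (by omega))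
  have h7 : sz P' ≤ sz (A, P) + sz l + 1 := by
    rw [sz_nat P', Nat.size_le]
    exact h5.trans_lt (Nat.pow_lt_pow_right (by norm_num) (by omega))
  have h8 := szi_le A
  have h9 := sziq_le l
  have h10 := length_le_sz A
  have h11 := length_le_sz l
  have h12 : A'.length * (6 * (sz (A, P) + sz l + 1) + 5) ≤
      ((sz l + sz (A, P)) + (sz l + sz (A, P))) *
        (6 * ((sz l + sz (A, P)) + (sz l + sz (A, P))) + 11) := by
    refine Nat.mul_le_mul ?_ (by omega)
    rw [h2, sz_pair]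
    omega
  generalize hS : sz l + sz (A, P) = S at h12 ⊢
  rw [sz_pair]
  rw [sz_pair] at hS h7
  omega

@[fun_prop]
theorem fp_clr {f : α → Qd} (hf : FP f) : FP fun a => clr (f a) :=
  fp_clr'.comp (f := fun a => (f a, (([], 1) : Qz × ℕ))) (hf.pair (FP.const _))

/-! ## Lists without repetition -/

/-- insertion of a new element -/
def ins (l : List ℕ) (i : ℕ) : List ℕ := if l.any (fun j => decide (j = i)) then l else l ++ [i]

/-- list without repetition -/
def dd (l : List ℕ) : List ℕ := l.foldl ins []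

theorem ins_spec {l : List ℕ} (hl : l.Nodup) (i : ℕ) :
    (ins l i).Nodup ∧ ∀ j, j ∈ ins l i ↔ j ∈ l ∨ j = i := by
  unfold ins
  split_ifs with h
  · refine ⟨hl, fun j => ⟨Or.inl, ?_⟩⟩
    rintro (h1 | rfl)
    · exact h1
    · obtain ⟨k, hk, h2⟩ := List.any_eq_true.1 h
      rw [decide_eq_true_eq] at h2
      rwa [← h2]
  · refine ⟨?_, fun j => by simp⟩
    rw [List.nodup_append]
    refine ⟨hl, List.nodup_singleton _, ?_⟩
    intro j hj k hk hjk
    rw [List.mem_singleton] at hk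
    subst hjk
    subst hk
    exact h (List.any_eq_true.2 ⟨j, hj, by simp⟩)

theorem dd_fold (l : List ℕ) (s : List ℕ) (hs : s.Nodup) :
    (l.foldl ins s).Nodup ∧ ∀ j, j ∈ l.foldl ins s ↔ j ∈ s ∨ j ∈ l := by
  induction l generalizing s with
  | nil => exact ⟨hs, fun j => by simp⟩
  | cons i l ih =>
    rw [List.foldl_cons]
    obtain ⟨h1, h2⟩ := ins_spec hs i
    obtain ⟨h3, h4⟩ := ih _ h1
    refine ⟨h3, fun j => ?_⟩
    rw [h4, h2, List.mem_cons, or_assoc]

theorem dd_nodup (l : List ℕ) : (dd l).Nodup := (dd_fold l [] List.nodup_nil).1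

theorem mem_dd {l : List ℕ} {j : ℕ} : j ∈ dd l ↔ j ∈ l := by
  rw [dd, (dd_fold l [] List.nodup_nil).2]
  simp

theorem sz_ins (l : List ℕ) (i : ℕ) : sz (ins l i) ≤ sz l + 2 * sz i + 1 := by
  unfold ins
  split_ifs
  · omega
  · rw [sz_append, sz_cons, sz_nil]
    omega

theorem sz_dd (l s : List ℕ) : sz (l.foldl ins s) ≤ sz s + sz l := by
  induction l generalizing s with
  | nil => simp
  | cons i l ih =>
    rw [List.foldl_cons]
    have h1 := ih (ins s i)
    have h2 := sz_ins s i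
    rw [sz_cons]
    omega

theorem fp_ins : FP fun p : List ℕ × ℕ => ins p.1 p.2 := by
  unfold ins
  have h1 : FP fun p : List ℕ × ℕ => p.1.any fun j => decide (j = p.2) := by
    have h2 : FP fun q : (List ℕ × ℕ) × ℕ => decide (q.2 = q.1.2) :=
      FP.natEq (by fun_prop) (by fun_prop)
    exact fp_any (by fun_prop) h2
  exact FP.ite h1 (by fun_prop) (FP.append (by fun_prop) (FP.cons (by fun_prop) (FP.const [])))

@[fun_prop]
theorem fp_dd {f : α → List ℕ} (hf : FP f) : FP fun a => dd (f a) := by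
  have h1 : FP fun p : List ℕ × List ℕ => p.1.foldl ins p.2 := by
    refine FP.foldl (g := ins) fp_ins (B := fun n => n) (by fun_prop) ?_
    intro l s
    have := sz_dd l s
    omega
  exact h1.comp (f := fun a => (f a, ([] : List ℕ))) (hf.pair (FP.const _))

end

end Pool.Agent.PQE
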