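import Mathlib

set_option autoImplicit false

/-!
# Polarisation

A product of powers `∏ y ^ e / e!` is a rational combination of `D`-th powers, `D = ∑ e`.
-/

open scoped BigOperators

namespace Pool.Agent.PQE

open Finset

theorem sum_pow_range {i e : ℕ} (h : i ≤ e) :
    ∑ f ∈ range (e + 1), ((-1 : ℚ) ^ (e - f) / (f.factorial * (e - f).factorial)) * (f : ℚ) ^ i
      = if i = e then 1 else 0 := by
  have h1 : ∑ f ∈ range (e + 1), ((-1 : ℚ) ^ (e - f) / (f.factorial * (e - f).factorial))
      * (f : ℚ) ^ i = (1 / (e.factorial : ℚ)) * (fwdDiff (1 : ℚ))^[e] (fun r : ℚ => r ^ i) 0 := by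
    rw [fwdDiff_iter_eq_sum_shift, Finset.mul_sum]
    refine Finset.sum_congr rfl fun f hf => ?_
    have hf' : f ≤ e := Nat.lt_succ_iff.1 (Finset.mem_range.1 hf)
    have h2 : ((e.choose f : ℕ) : ℚ) = (e.factorial : ℚ) / (f.factorial * (e - f).factorial) :=
      Nat.cast_choose ℚ hf'
    rw [zsmul_eq_mul]
    push_cast
    rw [h2]
    have h3 : (e.factorial : ℚ) ≠ 0 := Nat.cast_ne_zero.2 e.factorial_ne_zero
    field_simp
    simp
  rw [h1]
  by_cases hie : i = e
  · subst hie
    rw [fwdDiff_iter_eq_factorial, if_pos rfl]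
    have h3 : (i.factorial : ℚ) ≠ 0 := Nat.cast_ne_zero.2 i.factorial_ne_zero
    simp [h3]
  · rw [fwdDiff_iter_pow_eq_zero_of_lt (lt_of_le_of_ne h hie), if_neg hie]
    simp

section

variable {α β ι M : Type*}

theorem sum_map_flatMap [AddCommMonoid M] (l : List α) (g : α → List β) (h : β → M) :
    ((l.flatMap g).map h).sum = (l.map fun a => ((g a).map h).sum).sum := by
  induction l with
  | nil => simp
  | cons a l ih => rw [List.flatMap_cons, List.map_append, List.sum_append, ih, List.map_cons,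
      List.sum_cons]

theorem sum_map_finset_sum [AddCommMonoid M] (l : List α) (s : Finset ι) (g : ι → α → M) :
    (l.map fun a => ∑ i ∈ s, g i a).sum = ∑ i ∈ s, (l.map (g i)).sum := by
  induction l with
  | nil => simp
  | cons a l ih =>
    rw [List.map_cons, List.sum_cons, ih, ← Finset.sum_add_distrib]
    exact Finset.sum_congr rfl fun i _ => by rw [List.map_cons, List.sum_cons]

theorem sum_map_range [AddCommMonoid M] (n : ℕ) (g : ℕ → M) :
    ((List.range n).map g).sum = ∑ i ∈ Finset.range n, g i := by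
  rw [Finset.sum_range]
  rw [← List.sum_ofFn]
  congr 1
  rw [List.ofFn_eq_map, ← List.map_coe_finRange_eq_range, List.map_map]
  rfl

theorem sum_map_smul {R : Type*} [Ring R] [Algebra ℚ R] (l : List α) (c : ℚ) (g : α → R) :
    (l.map fun a => c • g a).sum = c • (l.map g).sum := by
  induction l with
  | nil => simp
  | cons a l ih => rw [List.map_cons, List.sum_cons, ih, List.map_cons, List.sum_cons, smul_add]

theorem sum_map_mul {R : Type*} [Ring R] (l : List α) (c : R) (g : α → R) :
    (l.map fun a => c * g a).sum = c * (l.map g).sum := by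
  induction l with
  | nil => simp
  | cons a l ih => rw [List.map_cons, List.sum_cons, ih, List.map_cons, List.sum_cons, mul_add]

end

section

variable {R : Type*} [CommRing R] [Algebra ℚ R]

/-- the terms of the polarisation of a product of powers -/
def pol : List (R × ℕ) → List (ℚ × R)
  | [] => [(1, 0)]
  | q :: l => (List.range (q.2 + 1)).flatMap fun f => (pol l).map fun p =>
      (p.1 * ((-1) ^ (q.2 - f) / (f.factorial * (q.2 - f).factorial)), p.2 + (f : R) * q.1)

/-- the sum of divided `d`-th powers -/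
def dpow (l : List (ℚ × R)) (d : ℕ) : R :=
  (l.map fun p => (p.1 / (d.factorial : ℚ)) • p.2 ^ d).sum

theorem dpow_one (p : ℚ × R) (w : ℚ) (f : ℕ) (y : R) (d : ℕ) :
    ((p.1 * w / (d.factorial : ℚ)) • (p.2 + (f : R) * y) ^ d)
      = ∑ i ∈ range (d + 1), ((w * (f : ℚ) ^ i) / (i.factorial : ℚ)) •
        (y ^ i * ((p.1 / ((d - i).factorial : ℚ)) • p.2 ^ (d - i))) := by
  rw [add_comm, add_pow, Finset.smul_sum]
  refine Finset.sum_congr rfl fun i hi => ?_
  have hi' : i ≤ d := Nat.lt_succ_iff.1 (Finset.mem_range.1 hi)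
  have h2 : ((d.choose i : ℕ) : ℚ) = (d.factorial : ℚ) / (i.factorial * (d - i).factorial) :=
    Nat.cast_choose ℚ hi'
  have h3 : ((d.choose i : ℕ) : R) = algebraMap ℚ R ((d.choose i : ℕ) : ℚ) := by
    rw [map_natCast]
  have h4 : (f : R) = algebraMap ℚ R (f : ℚ) := by rw [map_natCast]
  rw [h3, h4, mul_pow, ← map_pow, mul_smul_comm, smul_smul]
  rw [show algebraMap ℚ R ((f : ℚ) ^ i) * y ^ i * p.2 ^ (d - i) * algebraMap ℚ R
    ((d.choose i : ℕ) : ℚ) = algebraMap ℚ R ((f : ℚ) ^ i * ((d.choose i : ℕ) : ℚ))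
      * (y ^ i * p.2 ^ (d - i)) by rw [map_mul]; ring, ← Algebra.smul_def, smul_smul, h2]
  congr 1
  have h5 : (d.factorial : ℚ) ≠ 0 := Nat.cast_ne_zero.2 d.factorial_ne_zero
  have h6 : (i.factorial : ℚ) ≠ 0 := Nat.cast_ne_zero.2 i.factorial_ne_zero
  have h7 : ((d - i).factorial : ℚ) ≠ 0 := Nat.cast_ne_zero.2 (d - i).factorial_ne_zero
  field_simp

theorem dpow_cons (q : R × ℕ) (l : List (R × ℕ)) (d : ℕ) :
    dpow (pol (q :: l)) d = ∑ i ∈ range (d + 1),
      ((∑ f ∈ range (q.2 + 1), ((-1 : ℚ) ^ (q.2 - f) / (f.factorial * (q.2 - f).factorial))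
        * (f : ℚ) ^ i) / (i.factorial : ℚ)) • (q.1 ^ i * dpow (pol l) (d - i)) := by
  rw [dpow, pol, sum_map_flatMap, sum_map_range]
  simp_rw [List.map_map]
  rw [show (∑ f ∈ range (q.2 + 1), ((pol l).map ((fun p : ℚ × R =>
      (p.1 / (d.factorial : ℚ)) • p.2 ^ d) ∘ fun p => (p.1 * ((-1) ^ (q.2 - f)
      / (f.factorial * (q.2 - f).factorial)), p.2 + (f : R) * q.1))).sum)
    = ∑ f ∈ range (q.2 + 1), ∑ i ∈ range (d + 1), ((((-1 : ℚ) ^ (q.2 - f)
      / (f.factorial * (q.2 - f).factorial)) * (f : ℚ) ^ i) / (i.factorial : ℚ)) •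
        (q.1 ^ i * dpow (pol l) (d - i)) from ?_]
  · rw [Finset.sum_comm]
    refine Finset.sum_congr rfl fun i _ => ?_
    rw [← Finset.sum_smul, Finset.sum_div]
  · refine Finset.sum_congr rfl fun f _ => ?_
    rw [show ((fun p : ℚ × R => (p.1 / (d.factorial : ℚ)) • p.2 ^ d) ∘ fun p =>
      (p.1 * ((-1) ^ (q.2 - f) / (f.factorial * (q.2 - f).factorial)), p.2 + (f : R) * q.1))
      = fun p => ∑ i ∈ range (d + 1), ((((-1 : ℚ) ^ (q.2 - f)
      / (f.factorial * (q.2 - f).factorial)) * (f : ℚ) ^ i) / (i.factorial : ℚ)) •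
        (q.1 ^ i * ((p.1 / ((d - i).factorial : ℚ)) • p.2 ^ (d - i))) from
        funext fun p => dpow_one p _ f q.1 d, sum_map_finset_sum]
    refine Finset.sum_congr rfl fun i _ => ?_
    rw [sum_map_smul, sum_map_mul, dpow]

theorem dpow_pol (l : List (R × ℕ)) :
    (∀ d < (l.map Prod.snd).sum, dpow (pol l) d = 0) ∧ dpow (pol l) (l.map Prod.snd).sum
      = (l.map fun q => (1 / (q.2.factorial : ℚ)) • q.1 ^ q.2).prod := by
  induction l with
  | nil => simp [dpow, pol]
  | cons q l ih =>
    obtain ⟨h1, h2⟩ := ih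
    constructor
    · intro d hd
      rw [List.map_cons, List.sum_cons] at hd
      rw [dpow_cons]
      refine Finset.sum_eq_zero fun i hi => ?_
      have hi' : i ≤ d := Nat.lt_succ_iff.1 (Finset.mem_range.1 hi)
      by_cases h : i < q.2
      · rw [sum_pow_range h.le, if_neg h.ne, zero_div, zero_smul]
      · rw [h1 (d - i) (by omega), mul_zero, smul_zero]
    · rw [List.map_cons, List.sum_cons, dpow_cons, Finset.sum_eq_single q.2]
      · rw [sum_pow_range le_rfl, if_pos rfl, Nat.add_sub_cancel_left, h2, List.map_cons,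
          List.prod_cons, smul_mul_assoc]
      · intro i hi hne
        have hi' : i ≤ q.2 + (l.map Prod.snd).sum := Nat.lt_succ_iff.1 (Finset.mem_range.1 hi)
        by_cases h : i < q.2
        · rw [sum_pow_range h.le, if_neg h.ne, zero_div, zero_smul]
        · rw [h1 _ (by omega), mul_zero, smul_zero]
      · intro h
        exact absurd (Finset.mem_range.2 (by omega)) h

/-- a product of divided powers is a sum of divided powers -/
theorem pol_sum (l : List (R × ℕ)) :
    ((pol l).map fun p => (p.1 / ((l.map Prod.snd).sum.factorial : ℚ)) •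
      p.2 ^ (l.map Prod.snd).sum).sum
      = (l.map fun q => (1 / (q.2.factorial : ℚ)) • q.1 ^ q.2).prod :=
  (dpow_pol l).2

end

end Pool.Agent.PQE
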