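import Pool.Agent.PQE.Mom
import Pool.Agent.PQE.Pol

set_option autoImplicit false

/-!
# Zero criterion

A sum of terms vanishes if and only if the double sum of the inner products vanishes.
-/

open scoped BigOperators

namespace Pool.Agent.PQE

open MvPolynomial

variable {σ α : Type*}

theorem fis_list_left (l : List α) (g : α → MvPolynomial σ ℚ) (q : MvPolynomial σ ℚ) :
    fis (l.map g).sum q = (l.map fun a => fis (g a) q).sum := by
  induction l with
  | nil => simp [fis_zero_left]
  | cons a l ih => rw [List.map_cons, List.sum_cons, fis_add_left, ih, List.map_cons, List.sum_cons]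

theorem fis_list_right (l : List α) (g : α → MvPolynomial σ ℚ) (q : MvPolynomial σ ℚ) :
    fis q (l.map g).sum = (l.map fun a => fis q (g a)).sum := by
  rw [fis_comm, fis_list_left]
  congr 1
  exact List.map_congr_left fun a _ => fis_comm _ _

theorem sum_eq_zero_iff (l : List α) (c : α → ℚ) (g : α → MvPolynomial σ ℚ) :
    (l.map fun a => C (c a) * g a).sum = 0 ↔
      (l.map fun a => (l.map fun b => c a * c b * fis (g a) (g b)).sum).sum = 0 := by
  rw [← fis_self_eq_zero, fis_list_left]
  have h : (l.map fun a => fis (C (c a) * g a) (l.map fun a => C (c a) * g a).sum)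
      = l.map fun a => (l.map fun b => c a * c b * fis (g a) (g b)).sum := by
    refine List.map_congr_left fun a _ => ?_
    rw [fis_list_right]
    congr 1
    refine List.map_congr_left fun b _ => ?_
    rw [fis_C_mul_left, fis_C_mul_right, mul_assoc]
  rw [h]

end Pool.Agent.PQE
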