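import Pool.Agent.PQE.Clr
import Pool.Agent.PQE.Pol

set_option autoImplicit false

/-!
Sums of products of boundedly many powers of quadratic polynomials, computed in polynomial time.
-/

namespace Pool.Agent.PQE

open N487b59b3 N68a2faeb Pool.Agent.Helper22 Pool.Agent.Helper6.WB Pool.Agent.Helper6.SP
open MvPolynomial

/-- the quadratic polynomial of a sparse matrix -/
noncomputable def qpoly (A : Qd) : MvPolynomial ℕ ℚ := qsv (fun p => vv p.1 * vv p.2) A

/-- a term: a coefficient and powers of forms -/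
abbrev Tm := El × List (Qd × List Bool)

/-- value of a product of powers -/
noncomputable def pval (l : List (Qd × List Bool)) : MvPolynomial ℕ ℚ :=
  (l.map fun q => qpoly q.1 ^ q.2.length).prod

/-- value of a term -/
noncomputable def tval (t : Tm) : MvPolynomial ℕ ℚ := C (toQ t.1) * pval t.2

/-- well formed forms -/
def wq (A : Qd) : Prop := ∀ x ∈ A, x.2.2 ≠ 0

/-- well formed terms with at most `R` bases -/
def wf (R : ℕ) (t : Tm) : Prop := t.1.2 ≠ 0 ∧ t.2.length ≤ R ∧ ∀ q ∈ t.2, wq q.1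

instance : Inhabited Qd := ⟨[]⟩
instance : Inhabited (Qd × List Bool) := ⟨([], [])⟩
instance : Inhabited Tm := ⟨(((0, 0), 1), [])⟩

section

variable {α β γ : Type} [N487b59b3 α] [N487b59b3 β] [N487b59b3 γ]

/-- sums of products of at most `R` powers of quadratic polynomials -/
def FT (R : ℕ) (f : α → MvPolynomial ℕ ℚ) : Prop :=
  ∃ T : α → List Tm, FP T ∧ (∀ a, ∀ t ∈ T a, wf R t) ∧ ∀ a, f a = ((T a).map tval).sum

/-- quadratic polynomials -/
def FD (f : α → MvPolynomial ℕ ℚ) : Prop :=
  ∃ q : α → Qd, FP q ∧ (∀ a, wq (q a)) ∧ ∀ a, f a = qpoly (q a)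

theorem FT.congr {R : ℕ} {f g : α → MvPolynomial ℕ ℚ} (hf : FT R f) (h : ∀ a, g a = f a) :
    FT R g := by
  obtain ⟨T, h1, h2, h3⟩ := hf
  exact ⟨T, h1, h2, fun a => (h a).trans (h3 a)⟩

theorem FD.congr {f g : α → MvPolynomial ℕ ℚ} (hf : FD f) (h : ∀ a, g a = f a) : FD g := by
  obtain ⟨T, h1, h2, h3⟩ := hf
  exact ⟨T, h1, h2, fun a => (h a).trans (h3 a)⟩

theorem wf.mono {R R' : ℕ} {t : Tm} (h : wf R t) (hR : R ≤ R') : wf R' t :=
  ⟨h.1, h.2.1.trans hR, h.2.2⟩

theorem FT.mono {R R' : ℕ} {f : α → MvPolynomial ℕ ℚ} (hf : FT R f) (hR : R ≤ R') : FT R' f := by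
  obtain ⟨T, h1, h2, h3⟩ := hf
  exact ⟨T, h1, fun a t ht => (h2 a t ht).mono hR, h3⟩

theorem FT.comp {R : ℕ} {f : β → MvPolynomial ℕ ℚ} {g : α → β} (hf : FT R f) (hg : FP g) :
    FT R fun a => f (g a) := by
  obtain ⟨T, h1, h2, h3⟩ := hf
  exact ⟨fun a => T (g a), h1.comp hg, fun a => h2 _, fun a => h3 _⟩

theorem FD.comp {f : β → MvPolynomial ℕ ℚ} {g : α → β} (hf : FD f) (hg : FP g) :
    FD fun a => f (g a) := by
  obtain ⟨T, h1, h2, h3⟩ := hf
  exact ⟨fun a => T (g a), h1.comp hg, fun a => h2 _, fun a => h3 _⟩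

/-! ## Quadratic polynomials -/

omit [N487b59b3 α] in
theorem qpoly_nil : qpoly [] = 0 := rfl

omit [N487b59b3 α] in
theorem qpoly_cons (x : (ℕ × ℕ) × El) (A : Qd) :
    qpoly (x :: A) = C (toQ x.2) * (vv x.1.1 * vv x.1.2) + qpoly A := by
  rw [qpoly, qsv_cons, smul_eq_C_mul]
  rfl

omit [N487b59b3 α] in
theorem qpoly_append (A B : Qd) : qpoly (A ++ B) = qpoly A + qpoly B := by
  induction A with
  | nil => simp [qpoly_nil]
  | cons x A ih => rw [List.cons_append, qpoly_cons, ih, qpoly_cons, add_assoc]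

omit [N487b59b3 α] in
theorem qpoly_eq (A : Qd) :
    qpoly A = (A.map fun x => C (toQ x.2) * (vv x.1.1 * vv x.1.2)).sum := by
  induction A with
  | nil => rfl
  | cons x A ih => rw [qpoly_cons, ih, List.map_cons, List.sum_cons]

omit [N487b59b3 α] in
theorem qpoly_flatMap {ι : Type*} (l : List ι) (f : ι → Qd) :
    qpoly (l.flatMap f) = (l.map fun i => qpoly (f i)).sum := by
  induction l with
  | nil => rfl
  | cons i l ih => rw [List.flatMap_cons, qpoly_append, ih, List.map_cons, List.sum_cons]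

theorem FD.zero : FD fun _ : α => (0 : MvPolynomial ℕ ℚ) :=
  ⟨fun _ => [], FP.const _, fun _ x hx => by simp at hx, fun _ => qpoly_nil.symm⟩

theorem FD.add {f g : α → MvPolynomial ℕ ℚ} (hf : FD f) (hg : FD g) : FD fun a => f a + g a := by
  obtain ⟨F, h1, h2, h3⟩ := hf
  obtain ⟨G, h4, h5, h6⟩ := hg
  refine ⟨fun a => F a ++ G a, FP.append h1 h4, fun a x hx => ?_, fun a => ?_⟩
  · rcases List.mem_append.1 hx with hx | hx
    · exact h2 a x hx
    · exact h5 a x hx
  · beta_reduce
    rw [qpoly_append, h3, h6]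

theorem FD.listSum {l : α → List β} [Inhabited β] {g : α × β → MvPolynomial ℕ ℚ} (hl : FP l)
    (hg : FD g) : FD fun a => ((l a).map fun b => g (a, b)).sum := by
  obtain ⟨G, h1, h2, h3⟩ := hg
  refine ⟨fun a => (l a).flatMap fun b => G (a, b), fp_flatMap hl h1, fun a x hx => ?_,
    fun a => ?_⟩
  · obtain ⟨b, _, hb⟩ := List.mem_flatMap.1 hx
    exact h2 _ x hb
  · beta_reduce
    rw [qpoly_flatMap]
    congr 1
    exact List.map_congr_left fun b _ => h3 _

/-- a single product of two variables -/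
theorem FD.mon {i j : α → ℕ} {c : α → ℚ} (hi : FP i) (hj : FP j) (hc : FQ c) :
    FD fun a => C (c a) * (vv (i a) * vv (j a)) := by
  obtain ⟨G, h1, h2, h3⟩ := hc
  refine ⟨fun a => [((i a, j a), G a)], FP.cons (FP.pair (FP.pair hi hj) h1) (FP.const []),
    fun a x hx => ?_, fun a => ?_⟩
  · rw [List.mem_singleton] at hx
    rw [hx]
    exact h2 a
  · rw [qpoly_cons, qpoly_nil, add_zero, h3]

/-- quadratic polynomials with given coefficients -/
theorem FD.coef {N N' : α → List ℕ} (hN : FP N) (hN' : FP N') {c : (α × ℕ) × ℕ → ℚ} (hc : FQ c) :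
    FD fun a => ((N a).map fun i => ((N' a).map fun j => C (c ((a, i), j)) *
      (vv i * vv j)).sum).sum := by
  have h1 : FD fun q : (α × ℕ) × ℕ => C (c q) * (vv q.1.2 * vv q.2) :=
    FD.mon (by fun_prop) (by fun_prop) hc
  have h2 : FD fun q : α × ℕ => ((N' q.1).map fun j => C (c (q, j)) * (vv q.2 * vv j)).sum :=
    FD.listSum (hN'.comp FP.fst) h1
  exact FD.listSum hN h2

theorem FD.const {c : α → ℚ} (hc : FQ c) : FD fun a => C (c a) :=
  (FD.mon (FP.const 0) (FP.const 0) hc).congr fun a => by simp [vv]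

/-! ## Sums of products of powers -/

omit [N487b59b3 α] in
theorem pval_append (l l' : List (Qd × List Bool)) : pval (l ++ l') = pval l * pval l' := by
  rw [pval, List.map_append, List.prod_append]
  rfl

omit [N487b59b3 α] in
theorem pval_cons (q : Qd × List Bool) (l : List (Qd × List Bool)) :
    pval (q :: l) = qpoly q.1 ^ q.2.length * pval l := by
  rw [pval, List.map_cons, List.prod_cons]
  rfl

omit [N487b59b3 α] in
theorem pval_nil : pval [] = 1 := rfl

theorem FT.zero : FT 0 fun _ : α => (0 : MvPolynomial ℕ ℚ) :=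
  ⟨fun _ => [], FP.const _, fun _ x hx => by simp at hx, fun _ => rfl⟩

theorem FT.scalar {c : α → ℚ} (hc : FQ c) : FT 0 fun a => C (c a) := by
  obtain ⟨F, h1, h2, h3⟩ := hc
  refine ⟨fun a => [(F a, [])], FP.cons (FP.pair h1 (FP.const [])) (FP.const []),
    fun a t ht => ?_, fun a => ?_⟩
  · rw [List.mem_singleton] at ht
    rw [ht]
    exact ⟨h2 a, le_rfl, fun q hq => by simp at hq⟩
  · simp [tval, pval_nil, h3]

theorem FT.atom {f : α → MvPolynomial ℕ ℚ} {e : α → List Bool} (hf : FD f) (he : FP e) :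
    FT 1 fun a => f a ^ (e a).length := by
  obtain ⟨q, h1, h2, h3⟩ := hf
  refine ⟨fun a => [(((1, 0), 1), [(q a, e a)])], FP.cons (FP.pair (FP.const _)
    (FP.cons (FP.pair h1 he) (FP.const []))) (FP.const []), fun a t ht => ?_, fun a => ?_⟩
  · rw [List.mem_singleton] at ht
    rw [ht]
    refine ⟨one_ne_zero, le_rfl, fun q' hq' => ?_⟩
    rw [List.mem_singleton] at hq'
    rw [hq']
    exact h2 a
  · have h7 : toQ ((1, 0), 1) = 1 := by simp [toQ]
    beta_reduce
    rw [List.map_singleton, List.sum_singleton, tval, pval_cons, pval_nil, h3, h7, C_1, one_mul,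
      mul_one]

/-- a quadratic polynomial -/
theorem FT.quad {f : α → MvPolynomial ℕ ℚ} (hf : FD f) : FT 1 f :=
  (FT.atom hf (FP.const [true])).congr fun a => by simp

theorem FT.add {R : ℕ} {f g : α → MvPolynomial ℕ ℚ} (hf : FT R f) (hg : FT R g) :
    FT R fun a => f a + g a := by
  obtain ⟨F, h1, h2, h3⟩ := hf
  obtain ⟨G, h4, h5, h6⟩ := hg
  refine ⟨fun a => F a ++ G a, FP.append h1 h4, fun a x hx => ?_, fun a => ?_⟩
  · rcases List.mem_append.1 hx with hx | hx
    · exact h2 a x hx
    · exact h5 a x hx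
  · beta_reduce
    rw [List.map_append, List.sum_append, h3, h6]

theorem FT.listSum {R : ℕ} {l : α → List β} [Inhabited β] {g : α × β → MvPolynomial ℕ ℚ}
    (hl : FP l) (hg : FT R g) : FT R fun a => ((l a).map fun b => g (a, b)).sum := by
  obtain ⟨G, h1, h2, h3⟩ := hg
  refine ⟨fun a => (l a).flatMap fun b => G (a, b), fp_flatMap hl h1, fun a x hx => ?_,
    fun a => ?_⟩
  · obtain ⟨b, _, hb⟩ := List.mem_flatMap.1 hx
    exact h2 _ x hb
  · beta_reduce
    rw [List.map_flatMap, sum_flatMap']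
    congr 1
    exact List.map_congr_left fun b _ => h3 _

omit [N487b59b3 α] in
theorem mul_sum' {M : Type*} [Semiring M] (x : M) (l : List M) :
    x * l.sum = (l.map fun y => x * y).sum := by
  induction l with
  | nil => simp
  | cons y l ih => rw [List.sum_cons, mul_add, List.map_cons, List.sum_cons, ih]

omit [N487b59b3 α] in
theorem sum_mul_sum {M ι κ : Type*} [Semiring M] (l : List ι) (l' : List κ) (F : ι → M)
    (G : κ → M) : (l.map F).sum * (l'.map G).sum =
      (l.flatMap fun x => l'.map fun y => F x * G y).sum := by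
  induction l with
  | nil => simp
  | cons x l ih =>
    rw [List.map_cons, List.sum_cons, add_mul, ih, List.flatMap_cons, List.sum_append, mul_sum',
      List.map_map]
    rfl

theorem FT.mul {R R' : ℕ} {f g : α → MvPolynomial ℕ ℚ} (hf : FT R f) (hg : FT R' g) :
    FT (R + R') fun a => f a * g a := by
  obtain ⟨F, h1, h2, h3⟩ := hf
  obtain ⟨G, h4, h5, h6⟩ := hg
  have h7 : FP fun q : (α × Tm) × Tm =>
      ((elMul q.1.2.1 q.2.1, q.1.2.2 ++ q.2.2) : Tm) :=
    FP.pair (fp_elMul (by fun_prop) (by fun_prop)) (FP.append (by fun_prop) (by fun_prop))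
  have h8 : FP fun q : α × Tm => (G q.1).map fun t' => ((elMul q.2.1 t'.1, q.2.2 ++ t'.2) : Tm) :=
    fp_map (h4.comp FP.fst) h7
  refine ⟨fun a => (F a).flatMap fun t => (G a).map fun t' =>
    ((elMul t.1 t'.1, t.2 ++ t'.2) : Tm), fp_flatMap h1 h8, fun a x hx => ?_, fun a => ?_⟩
  · obtain ⟨t, ht, hx⟩ := List.mem_flatMap.1 hx
    obtain ⟨t', ht', rfl⟩ := List.mem_map.1 hx
    obtain ⟨a1, a2, a3⟩ := h2 a t ht
    obtain ⟨b1, b2, b3⟩ := h5 a t' ht'
    refine ⟨mul_ne_zero a1 b1, by rw [List.length_append]; omega, fun q hq => ?_⟩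
    rcases List.mem_append.1 hq with hq | hq
    · exact a3 q hq
    · exact b3 q hq
  · beta_reduce
    rw [h3, h6, sum_mul_sum, List.map_flatMap]
    congr 1
    refine List.flatMap_congr fun t _ => ?_
    rw [List.map_map]
    refine List.map_congr_left fun t' _ => ?_
    simp only [Function.comp_apply, tval, toQ_mul, C_mul, pval_append]
    ring

theorem FT.smul {R : ℕ} {c : α → ℚ} {f : α → MvPolynomial ℕ ℚ} (hc : FQ c) (hf : FT R f) :
    FT R fun a => C (c a) * f a :=
  ((FT.scalar hc).mul hf).mono (by omega)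

theorem FT.sum {R : ℕ} {ι : Type} (s : Finset ι) {f : ι → α → MvPolynomial ℕ ℚ}
    (hf : ∀ i, FT R (f i)) : FT R fun a => ∑ i ∈ s, f i a := by
  classical
  induction s using Finset.induction_on with
  | empty => exact (FT.zero.mono (Nat.zero_le _)).congr fun a => by simp
  | insert i s hi ih => exact ((hf i).add ih).congr fun a => by rw [Finset.sum_insert hi]

theorem FT.prod {R : ℕ} {ι : Type} (s : Finset ι) {f : ι → α → MvPolynomial ℕ ℚ}
    (hf : ∀ i, FT R (f i)) : FT (s.card * R) fun a => ∏ i ∈ s, f i a := by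
  classical
  induction s using Finset.induction_on with
  | empty =>
    exact ((FT.scalar (FQ.const 1)).mono (Nat.zero_le _)).congr fun a => by simp
  | insert i s hi ih =>
    refine (((hf i).mul ih).mono (R' := (insert i s).card * R) ?_).congr fun a => by
      rw [Finset.prod_insert hi]
    rw [Finset.card_insert_of_notMem hi, add_mul, one_mul, add_comm]

theorem FT.det {R M : ℕ} {f : Fin M → Fin M → α → MvPolynomial ℕ ℚ} (hf : ∀ i j, FT R (f i j)) :
    FT (M * R) fun a => (Matrix.of fun i j => f i j a).det := by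
  refine (FT.sum (Finset.univ : Finset (Equiv.Perm (Fin M)))
    (f := fun s a => C ((Equiv.Perm.sign s : ℤ) : ℚ) * ∏ i, f (s i) i a) fun s =>
    FT.smul (FQ.const _) ?_).congr fun a => ?_
  · refine (FT.prod Finset.univ fun i => hf _ _).mono ?_
    rw [Finset.card_univ, Fintype.card_fin]
  · rw [Matrix.det_apply']
    refine Finset.sum_congr rfl fun s _ => ?_
    congr 1

theorem FT.ite {R : ℕ} {c : α → Bool} {f g : α → MvPolynomial ℕ ℚ} (hc : FP c) (hf : FT R f)
    (hg : FT R g) : FT R fun a => if c a then f a else g a := by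
  obtain ⟨F, h1, h2, h3⟩ := hf
  obtain ⟨G, h4, h5, h6⟩ := hg
  refine ⟨fun a => if c a then F a else G a, FP.ite hc h1 h4, fun a t ht => ?_, fun a => ?_⟩
  · by_cases h : c a = true
    · simp only [h, if_true] at ht
      exact h2 a t ht
    · simp only [h] at ht
      exact h5 a t ht
  · by_cases h : c a = true
    · simp only [h, if_true]
      exact h3 a
    · simp only [h]
      exact h6 a

/-- products of powers given by a list of at most `R` pairs -/
theorem FT.prodList {R : ℕ} [Inhabited β] {l : α → List β} (hl : FP l)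
    (hR : ∀ a, (l a).length ≤ R) {f : α × β → MvPolynomial ℕ ℚ} (hf : FD f)
    {e : α × β → List Bool} (he : FP e) :
    FT R fun a => ((l a).map fun b => f (a, b) ^ (e (a, b)).length).prod := by
  obtain ⟨q, h1, h2, h3⟩ := hf
  have h4 : FP fun a => (l a).map fun b => ((q (a, b), e (a, b)) : Qd × List Bool) :=
    fp_map hl (FP.pair h1 he)
  refine ⟨fun a => [(((1, 0), 1), (l a).map fun b => (q (a, b), e (a, b)))],
    FP.cons (FP.pair (FP.const _) h4) (FP.const []), fun a t ht => ?_, fun a => ?_⟩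
  · rw [List.mem_singleton] at ht
    rw [ht]
    refine ⟨one_ne_zero, by simpa using hR a, fun q' hq' => ?_⟩
    obtain ⟨b, _, rfl⟩ := List.mem_map.1 hq'
    exact h2 _
  · have h7 : toQ ((1, 0), 1) = 1 := by simp [toQ]
    beta_reduce
    rw [List.map_singleton, List.sum_singleton, tval, h7, C_1, one_mul, pval, List.map_map]
    congr 1
    refine List.map_congr_left fun b _ => ?_
    rw [h3]
    rfl

end

end Pool.Agent.PQE
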