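import Pool.Agent.PQE.Hom

set_option autoImplicit false

/-!
# Units modulo powers of the ideal of the origin

Polynomials with nonzero constant term are invertible modulo the ideal of the polynomials without
terms of degree at most `M`; the determinant of a Jacobian matrix can be computed from logarithmic
derivatives modulo this ideal.
-/

open scoped BigOperators

namespace Pool.Agent.PQE

open MvPolynomial

variable {σ : Type*}

/-- the ideal of the polynomials without terms of degree at most `M` -/
def small (σ : Type*) (M : ℕ) : Ideal (MvPolynomial σ ℚ) where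
  carrier := {p | ∀ b : σ →₀ ℕ, b.degree ≤ M → p.coeff b = 0}
  zero_mem' := fun b _ => coeff_zero b
  add_mem' := fun {p q} hp hq b hb => by rw [coeff_add, hp b hb, hq b hb, add_zero]
  smul_mem' := fun c p hp b hb => by
    classical
    rw [smul_eq_mul, coeff_mul]
    refine Finset.sum_eq_zero fun x hx => ?_
    rw [Finset.HasAntidiagonal.mem_antidiagonal] at hx
    rw [hp x.2 _, mul_zero]
    refine le_trans ?_ hb
    rw [← hx, map_add]
    omega

theorem mem_small {M : ℕ} {p : MvPolynomial σ ℚ} :
    p ∈ small σ M ↔ ∀ b : σ →₀ ℕ, b.degree ≤ M → p.coeff b = 0 := Iff.rfl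

theorem small_anti {M M' : ℕ} (h : M ≤ M') {p : MvPolynomial σ ℚ} (hp : p ∈ small σ M') :
    p ∈ small σ M := fun b hb => hp b (hb.trans h)

theorem mem_small_zero {p : MvPolynomial σ ℚ} : p ∈ small σ 0 ↔ constantCoeff p = 0 := by
  rw [mem_small]
  constructor
  · intro h
    exact h 0 (by rw [(Finsupp.degree).map_zero])
  · intro h b hb
    have h1 : b = 0 := (Finsupp.degree_eq_zero_iff b).1 (Nat.le_zero.1 hb)
    rw [h1]
    exact h

theorem mul_mem_small {M : ℕ} {p q : MvPolynomial σ ℚ} (hp : p ∈ small σ M)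
    (hq : q ∈ small σ 0) : p * q ∈ small σ (M + 1) := by
  classical
  intro b hb
  rw [coeff_mul]
  refine Finset.sum_eq_zero fun x hx => ?_
  rw [Finset.HasAntidiagonal.mem_antidiagonal] at hx
  rcases Nat.eq_zero_or_pos x.2.degree with h | h
  · rw [hq x.2 h.le, mul_zero]
  · rw [hp x.1, zero_mul]
    have h1 : x.1.degree + x.2.degree = b.degree := by rw [← map_add, hx]
    omega

theorem pow_mem_small {q : MvPolynomial σ ℚ} (hq : constantCoeff q = 0) (M : ℕ) :
    q ^ (M + 1) ∈ small σ M := by
  induction M with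
  | zero => rw [zero_add, pow_one]; exact mem_small_zero.2 hq
  | succ M ih => rw [pow_succ]; exact mul_mem_small ih (mem_small_zero.2 hq)

/-- the truncated inverse -/
noncomputable def uinv (M : ℕ) (g : MvPolynomial σ ℚ) : MvPolynomial σ ℚ :=
  ∑ i ∈ Finset.range (M + 1), C ((-1) ^ i / constantCoeff g ^ (i + 1)) *
    (g - C (constantCoeff g)) ^ i

theorem mul_uinv {g : MvPolynomial σ ℚ} (hg : constantCoeff g ≠ 0) (M : ℕ) :
    g * uinv M g - 1 = C (-((-1) ^ (M + 1) / constantCoeff g ^ (M + 1))) *
      (g - C (constantCoeff g)) ^ (M + 1) := by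
  induction M with
  | zero =>
    rw [uinv, zero_add, Finset.sum_range_one, pow_zero, pow_zero, zero_add, pow_one, pow_one,
      pow_one, mul_one]
    have h1 : (1 : MvPolynomial σ ℚ) = C (1 / constantCoeff g) * C (constantCoeff g) := by
      rw [← C_mul, one_div_mul_cancel hg, C_1]
    rw [show -((-1 : ℚ) / constantCoeff g) = 1 / constantCoeff g by ring, mul_sub, ← h1]
    ring
  | succ M ih =>
    have h1 : uinv (M + 1) g = uinv M g + C ((-1) ^ (M + 1) / constantCoeff g ^ (M + 2)) *
        (g - C (constantCoeff g)) ^ (M + 1) := by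
      rw [uinv, uinv, Finset.sum_range_succ]
    have h2 : (C (-((-1) ^ (M + 1) / constantCoeff g ^ (M + 1))) : MvPolynomial σ ℚ)
        = - (C ((-1) ^ (M + 1) / constantCoeff g ^ (M + 2)) * C (constantCoeff g)) := by
      rw [← C_mul, ← C_neg]
      congr 1
      have h4 : constantCoeff g ^ (M + 1) ≠ 0 := pow_ne_zero _ hg
      rw [pow_succ _ (M + 1), ← div_div, div_mul_cancel₀ _ hg]
    have h3 : (C (-((-1) ^ (M + 1 + 1) / constantCoeff g ^ (M + 1 + 1))) : MvPolynomial σ ℚ)
        = C ((-1) ^ (M + 1) / constantCoeff g ^ (M + 2)) := by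
      congr 1
      ring
    rw [h1, mul_add, show g * uinv M g + g * (C ((-1) ^ (M + 1) / constantCoeff g ^ (M + 2)) *
        (g - C (constantCoeff g)) ^ (M + 1)) - 1 = (g * uinv M g - 1)
        + g * (C ((-1) ^ (M + 1) / constantCoeff g ^ (M + 2)) *
        (g - C (constantCoeff g)) ^ (M + 1)) by ring, ih, h2, h3, pow_succ (g - _) (M + 1)]
    ring

theorem mul_uinv_sub_one_mem {g : MvPolynomial σ ℚ} (hg : constantCoeff g ≠ 0) (M : ℕ) :
    g * uinv M g - 1 ∈ small σ M := by
  rw [mul_uinv hg]
  refine Ideal.mul_mem_left _ _ (pow_mem_small ?_ M)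
  rw [map_sub, constantCoeff_C, sub_self]

theorem unit_mul_mem {g : MvPolynomial σ ℚ} (hg : constantCoeff g ≠ 0) {M : ℕ}
    {p : MvPolynomial σ ℚ} : g * p ∈ small σ M ↔ p ∈ small σ M := by
  constructor
  · intro h
    have h1 : p = uinv M g * (g * p) - (g * uinv M g - 1) * p := by ring
    rw [h1]
    exact Ideal.sub_mem _ (Ideal.mul_mem_left _ _ h)
      (Ideal.mul_mem_right _ _ (mul_uinv_sub_one_mem hg M))
  · exact fun h => Ideal.mul_mem_left _ _ h

theorem eq_zero_of_mem_small {M : ℕ} {p : MvPolynomial σ ℚ} (hd : p.totalDegree ≤ M)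
    (hp : p ∈ small σ M) : p = 0 := by
  ext b
  rw [coeff_zero]
  by_contra h
  have h1 : b.degree ≤ p.totalDegree := by
    have h2 := le_totalDegree (mem_support_iff.2 h)
    exact h2
  exact h (hp b (h1.trans hd))

theorem mem_small_iff_eq_zero {M : ℕ} {p : MvPolynomial σ ℚ} (hd : p.totalDegree ≤ M) :
    p ∈ small σ M ↔ p = 0 :=
  ⟨eq_zero_of_mem_small hd, fun h => h ▸ Ideal.zero_mem _⟩

/-- congruent matrices have congruent determinants -/
theorem det_sub_det_mem {R : Type*} [CommRing R] (I : Ideal R) {m : Type*} [Fintype m]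
    [DecidableEq m] {A B : Matrix m m R} (h : ∀ i j, A i j - B i j ∈ I) : A.det - B.det ∈ I := by
  rw [← Ideal.Quotient.eq_zero_iff_mem, map_sub, RingHom.map_det, RingHom.map_det]
  have h1 : (Ideal.Quotient.mk I).mapMatrix A = (Ideal.Quotient.mk I).mapMatrix B := by
    ext i j
    rw [RingHom.mapMatrix_apply, RingHom.mapMatrix_apply, Matrix.map_apply, Matrix.map_apply]
    exact (Ideal.Quotient.eq).2 (h i j)
  rw [h1, sub_self]

/-- the determinant of the matrix `J` vanishes if and only if the determinant of `E` is small -/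
theorem det_crit {m : Type*} [Fintype m] [DecidableEq m] {M : ℕ}
    {E J : Matrix m m (MvPolynomial σ ℚ)} {P : m → MvPolynomial σ ℚ}
    (hP : ∀ j, constantCoeff (P j) ≠ 0) (h : ∀ j c, P j * E j c - J j c ∈ small σ M)
    (hd : J.det.totalDegree ≤ M) : J.det = 0 ↔ E.det ∈ small σ M := by
  rw [← mem_small_iff_eq_zero hd]
  have h1 : (Matrix.of fun j c => P j * E j c).det - J.det ∈ small σ M :=
    det_sub_det_mem _ fun j c => h j c
  rw [Matrix.det_mul_column] at h1
  have h2 : constantCoeff (∏ j, P j) ≠ 0 := by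
    rw [map_prod]
    exact Finset.prod_ne_zero_iff.2 fun j _ => hP j
  rw [← unit_mul_mem h2 (p := E.det)]
  constructor
  · intro h3
    have h4 := Ideal.add_mem _ h1 h3
    rwa [sub_add_cancel] at h4
  · intro h3
    have h4 := Ideal.sub_mem _ h3 h1
    rwa [sub_sub_cancel] at h4

/-- the derivative of a product times a sum, modulo an ideal in which the factors are units -/
theorem row_mem {R R' : Type*} [CommRing R] [CommRing R'] (φ : R →+* R') (D : R → R)
    (hD : ∀ p q, D (p * q) = D p * q + p * D q) (u : R → R') (I : Ideal R') (A : List R) (S : R)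
    (hu : ∀ g ∈ A, φ g * u g - 1 ∈ I) :
    (A.map φ).prod * ((A.map fun g => φ (D g) * u g).sum * φ S + φ (D S)) - φ (D (A.prod * S))
      ∈ I := by
  have h1 : (A.map φ).prod * (A.map fun g => φ (D g) * u g).sum - φ (D A.prod) ∈ I := by
    induction A with
    | nil =>
      have h2 : D 1 = 0 := by
        have h := hD 1 1
        rw [mul_one, mul_one, one_mul] at h
        exact (left_eq_add.1 h)
      simp [h2]
    | cons g A ih =>
      have ih := ih fun g' hg' => hu g' (List.mem_cons_of_mem _ hg')
      rw [List.map_cons, List.prod_cons, List.map_cons, List.sum_cons, List.prod_cons, hD,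
        map_add, map_mul, map_mul, map_list_prod]
      rw [show φ g * (A.map φ).prod * (φ (D g) * u g + (A.map fun g => φ (D g) * u g).sum)
        - (φ (D g) * (A.map φ).prod + φ g * φ (D A.prod))
        = (φ g * u g - 1) * (φ (D g) * (A.map φ).prod)
          + φ g * ((A.map φ).prod * (A.map fun g => φ (D g) * u g).sum - φ (D A.prod)) by ring]
      exact Ideal.add_mem _ (Ideal.mul_mem_right _ _ (hu g List.mem_cons_self))
        (Ideal.mul_mem_left _ _ ih)
  rw [hD, map_add, map_mul, map_mul, map_list_prod]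
  rw [show (A.map φ).prod * ((A.map fun g => φ (D g) * u g).sum * φ S + φ (D S))
      - (φ (D A.prod) * φ S + (A.map φ).prod * φ (D S))
      = ((A.map φ).prod * (A.map fun g => φ (D g) * u g).sum - φ (D A.prod)) * φ S by ring]
  exact Ideal.mul_mem_right _ _ h1

end Pool.Agent.PQE
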