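import Pool.Agent.PQE.FT
import Pool.Agent.PQE.Unit

set_option autoImplicit false

/-!
Closure of the class `FT` of sums of products of boundedly many powers of quadratic polynomials
under partial derivatives and affine substitutions; truncated inverses of quadratic polynomials.
-/

namespace Pool.Agent.PQE

open N487b59b3 N68a2faeb Pool.Agent.Helper22 Pool.Agent.Helper6.WB Pool.Agent.Helper6.SP
open MvPolynomial

section

variable {α β γ : Type} [N487b59b3 α] [N487b59b3 β] [N487b59b3 γ]

/-! ## Elements -/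

theorem FQ.toQ : FQ fun x : El => Helper6.WB.toQ x := by
  refine ⟨fun x => if decide (x.2 = 0) then (((0, 0), 1) : El) else x, FP.ite
    (FP.natEq FP.snd (FP.const 0)) (FP.const _) FP.id, fun x => ?_, fun x => ?_⟩
  · by_cases h : x.2 = 0
    · simp [h]
    · simp [h]
  · by_cases h : x.2 = 0
    · simp [h, Helper6.WB.toQ]
    · simp [h]

theorem FQ.powU {c : α → ℚ} {e : α → List Bool} (hc : FQ c) (he : FP e) :
    FQ fun a => c a ^ (e a).length := by
  have h1 : FQ fun p : α × List Bool => (p.2.map fun b => (fun q : α × Bool => c q.1)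
      (p.1, b)).prod := FQ.listProd (hc.comp FP.fst)
  refine (h1.comp (FP.pair FP.id he)).congr fun a => ?_
  simp

/-! ## Linear forms -/

/-- the linear form of a list -/
noncomputable def lins (g : List (ℕ × El)) : MvPolynomial ℕ ℚ :=
  (g.map fun x => C (toQ x.2) * vv x.1).sum

/-- substitution in a sparse form -/
def linq (L : ℕ → List (ℕ × El)) (A : Qd) : Qd :=
  A.flatMap fun x => (L x.1.1).flatMap fun y => (L x.1.2).map fun z =>
    ((y.1, z.1), elMul x.2 (elMul y.2 z.2))

theorem qpoly_linq (φ : MvPolynomial ℕ ℚ →ₐ[ℚ] MvPolynomial ℕ ℚ) (L : ℕ → List (ℕ × El))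
    (h : ∀ k, φ (vv k) = lins (L k)) (A : Qd) : qpoly (linq L A) = φ (qpoly A) := by
  rw [linq, qpoly_flatMap, qpoly_eq A, map_list_sum, List.map_map]
  congr 1
  refine List.map_congr_left fun x _ => ?_
  rw [Function.comp_apply, map_mul, map_mul, h, h, lins, lins, sum_mul_sum, mul_sum',
    qpoly_eq]
  rw [List.map_flatMap, List.map_flatMap]
  congr 1
  refine List.flatMap_congr fun y _ => ?_
  rw [List.map_map, List.map_map]
  refine List.map_congr_left fun z _ => ?_
  simp only [Function.comp_apply, toQ_mul, C_mul]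
  rw [show φ (C (toQ x.2)) = C (toQ x.2) from φ.commutes _]
  ring

theorem wq_linq {L : ℕ → List (ℕ × El)} (hL : ∀ k, ∀ x ∈ L k, x.2.2 ≠ 0) {A : Qd} (hA : wq A) :
    wq (linq L A) := by
  intro w hw
  obtain ⟨x, hx, hw⟩ := List.mem_flatMap.1 hw
  obtain ⟨y, hy, hw⟩ := List.mem_flatMap.1 hw
  obtain ⟨z, hz, rfl⟩ := List.mem_map.1 hw
  exact mul_ne_zero (hA x hx) (mul_ne_zero (hL _ y hy) (hL _ z hz))

/-- the forms replacing the variables, including the homogenising one -/
def lext (g : α × ℕ → List (ℕ × El)) (p : α × ℕ) : List (ℕ × El) :=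
  if decide (p.2 = 0) then [(0, ((1, 0), 1))] else g (p.1, p.2 - 1)

theorem fp_lext {g : α × ℕ → List (ℕ × El)} (hg : FP g) : FP (lext g) := by
  have h1 : FP fun p : α × ℕ => g (p.1, p.2 - 1) :=
    hg.comp (FP.pair FP.fst (FP.natSub FP.snd (FP.const 1)))
  exact FP.ite (FP.natEq FP.snd (FP.const 0)) (FP.const _) h1

omit [N487b59b3 α] in
theorem lext_ne {g : α × ℕ → List (ℕ × El)} (hg : ∀ p, ∀ x ∈ g p, x.2.2 ≠ 0) (p : α × ℕ) :
    ∀ x ∈ lext g p, x.2.2 ≠ 0 := by
  intro x hx
  rw [lext] at hx
  by_cases h : p.2 = 0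
  · simp only [h, decide_true, if_true, List.mem_singleton] at hx
    rw [hx]
    exact one_ne_zero
  · simp only [h, decide_false, Bool.false_eq_true, if_false] at hx
    exact hg _ x hx

omit [N487b59b3 α] in
theorem lext_spec (g : α × ℕ → List (ℕ × El)) (a : α) (k : ℕ) :
    aeval (fun i => lins (g (a, i))) (vv k) = lins (lext g (a, k)) := by
  cases k with
  | zero =>
    have h7 : toQ ((1, 0), 1) = 1 := by simp [toQ]
    simp [vv, lext, lins, h7]
  | succ i => simp [vv, lext]

theorem fp_linq {g : α × ℕ → List (ℕ × El)} (hg : FP g) {A : α → Qd} (hA : FP A) :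
    FP fun a => linq (fun k => lext g (a, k)) (A a) := by
  have hL := fp_lext hg
  have h1 : FP fun q : (α × ((ℕ × ℕ) × El)) × (ℕ × El) =>
      (lext g (q.1.1, q.1.2.1.2)).map fun z =>
        (((q.2.1, z.1), elMul q.1.2.2 (elMul q.2.2 z.2)) : (ℕ × ℕ) × El) :=
    fp_map (h := fun w : ((α × ((ℕ × ℕ) × El)) × (ℕ × El)) × (ℕ × El) =>
        (((w.1.2.1, w.2.1), elMul w.1.1.2.2 (elMul w.1.2.2 w.2.2)) : (ℕ × ℕ) × El))
      (hL.comp (FP.pair (by fun_prop) (by fun_prop)))
      (FP.pair (FP.pair (by fun_prop) (by fun_prop))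
        (fp_elMul (by fun_prop) (fp_elMul (by fun_prop) (by fun_prop))))
  have h2 : FP fun q : α × ((ℕ × ℕ) × El) => (lext g (q.1, q.2.1.1)).flatMap fun y =>
      (lext g (q.1, q.2.1.2)).map fun z =>
        (((y.1, z.1), elMul q.2.2 (elMul y.2 z.2)) : (ℕ × ℕ) × El) :=
    fp_flatMap (hL.comp (FP.pair (by fun_prop) (by fun_prop))) h1
  exact fp_flatMap hA h2

/-- affine substitution in quadratic polynomials -/
theorem FD.lin {f : α → MvPolynomial ℕ ℚ} (hf : FD f) {g : α × ℕ → List (ℕ × El)} (hg : FP g)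
    (hg0 : ∀ p, ∀ x ∈ g p, x.2.2 ≠ 0) : FD fun a => aeval (fun i => lins (g (a, i))) (f a) := by
  obtain ⟨q, h1, h2, h3⟩ := hf
  refine ⟨fun a => linq (fun k => lext g (a, k)) (q a), fp_linq hg h1,
    fun a => wq_linq (fun k => lext_ne hg0 _) (h2 a), fun a => ?_⟩
  beta_reduce
  rw [qpoly_linq (aeval fun i => lins (g (a, i))) _ (lext_spec g a), h3]

/-- affine substitution in sums of products of powers -/
theorem FT.lin {R : ℕ} {f : α → MvPolynomial ℕ ℚ} (hf : FT R f) {g : α × ℕ → List (ℕ × El)}
    (hg : FP g) (hg0 : ∀ p, ∀ x ∈ g p, x.2.2 ≠ 0) :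
    FT R fun a => aeval (fun i => lins (g (a, i))) (f a) := by
  obtain ⟨T, h1, h2, h3⟩ := hf
  have h4 : FP fun w : (α × Tm) × (Qd × List Bool) =>
      ((linq (fun k => lext g (w.1.1, k)) w.2.1, w.2.2) : Qd × List Bool) := by
    refine FP.pair ?_ (by fun_prop)
    have h5 : FP fun p : α × Qd => linq (fun k => lext (fun r : (α × Qd) × ℕ =>
        g (r.1.1, r.2)) (p, k)) p.2 :=
      fp_linq (g := fun r : (α × Qd) × ℕ => g (r.1.1, r.2))
        (hg.comp (FP.pair (by fun_prop) (by fun_prop))) FP.snd
    have h6 : FP fun w : (α × Tm) × (Qd × List Bool) => ((w.1.1, w.2.1) : α × Qd) := by fun_prop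
    exact h5.comp h6
  have h7 : FP fun w : α × Tm => ((w.2.1, w.2.2.map fun q =>
      ((linq (fun k => lext g (w.1, k)) q.1, q.2) : Qd × List Bool)) : Tm) :=
    FP.pair (by fun_prop) (fp_map (by fun_prop) h4)
  refine ⟨fun a => (T a).map fun t => ((t.1, t.2.map fun q =>
    ((linq (fun k => lext g (a, k)) q.1, q.2) : Qd × List Bool)) : Tm), fp_map h1 h7,
    fun a t ht => ?_, fun a => ?_⟩
  · obtain ⟨s, hs, rfl⟩ := List.mem_map.1 ht
    obtain ⟨a1, a2, a3⟩ := h2 a s hs
    refine ⟨a1, by simpa using a2, fun q hq => ?_⟩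
    obtain ⟨r, hr, rfl⟩ := List.mem_map.1 hq
    exact wq_linq (fun k => lext_ne hg0 _) (a3 r hr)
  · beta_reduce
    rw [h3, map_list_sum, List.map_map, List.map_map]
    congr 1
    refine List.map_congr_left fun t _ => ?_
    simp only [Function.comp_apply, tval, map_mul]
    rw [show (aeval fun i => lins (g (a, i))) (C (toQ t.1)) = C (toQ t.1) from
      (aeval fun i => lins (g (a, i))).commutes _]
    congr 1
    rw [pval, pval, map_list_prod, List.map_map, List.map_map]
    congr 1
    refine List.map_congr_left fun q _ => ?_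
    simp only [Function.comp_apply, map_pow]
    rw [qpoly_linq (aeval fun i => lins (g (a, i))) _ (lext_spec g a)]

theorem fp_lin' {N : α → List ℕ} (hN : FP N) {G : (α × ℕ) × ℕ → El} (hG : FP G) :
    FP fun p : α × ℕ => (N p.1).map fun j => ((j, G (p, j)) : ℕ × El) :=
  fp_map (hN.comp FP.fst) (FP.pair FP.snd hG)

/-- affine substitution with computed coefficients -/
theorem FD.lin' {f : α → MvPolynomial ℕ ℚ} (hf : FD f) {N : α → List ℕ} (hN : FP N)
    {c : (α × ℕ) × ℕ → ℚ} (hc : FQ c) :
    FD fun a => aeval (fun i => ((N a).map fun j => C (c ((a, i), j)) * vv j).sum) (f a) := by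
  obtain ⟨G, h1, h2, h3⟩ := hc
  refine (FD.lin hf (fp_lin' hN h1) fun p x hx => ?_).congr fun a => ?_
  · obtain ⟨j, _, rfl⟩ := List.mem_map.1 hx
    exact h2 _
  · congr 2
    funext i
    rw [lins, List.map_map]
    congr 1
    refine List.map_congr_left fun j _ => ?_
    rw [Function.comp_apply, h3]

/-- affine substitution with computed coefficients -/
theorem FT.lin' {R : ℕ} {f : α → MvPolynomial ℕ ℚ} (hf : FT R f) {N : α → List ℕ} (hN : FP N)
    {c : (α × ℕ) × ℕ → ℚ} (hc : FQ c) :
    FT R fun a => aeval (fun i => ((N a).map fun j => C (c ((a, i), j)) * vv j).sum) (f a) := by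
  obtain ⟨G, h1, h2, h3⟩ := hc
  refine (FT.lin hf (fp_lin' hN h1) fun p x hx => ?_).congr fun a => ?_
  · obtain ⟨j, _, rfl⟩ := List.mem_map.1 hx
    exact h2 _
  · congr 2
    funext i
    rw [lins, List.map_map]
    congr 1
    refine List.map_congr_left fun j _ => ?_
    rw [Function.comp_apply, h3]

/-! ## Partial derivatives -/

/-- the derivative of a sparse form -/
def pdq (i : ℕ) (A : Qd) : Qd :=
  A.flatMap fun x => (if decide (x.1.1 = i + 1) then [((0, x.1.2), x.2)] else []) ++
    (if decide (x.1.2 = i + 1) then [((x.1.1, 0), x.2)] else [])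

omit [N487b59b3 α] in
theorem pderiv_vv (i k : ℕ) : pderiv i (vv k) = if k = i + 1 then 1 else 0 := by
  cases k with
  | zero => simp [vv]
  | succ j =>
    rw [vv]
    by_cases h : j = i
    · subst h
      simp
    · rw [pderiv_X_of_ne h, if_neg (by omega)]

omit [N487b59b3 α] in
theorem qpoly_pdq (i : ℕ) (A : Qd) : qpoly (pdq i A) = pderiv i (qpoly A) := by
  rw [pdq, qpoly_flatMap, qpoly_eq A, map_list_sum, List.map_map]
  congr 1
  refine List.map_congr_left fun x _ => ?_
  rw [Function.comp_apply, pderiv_C_mul, Derivation.leibniz, pderiv_vv, pderiv_vv, qpoly_append]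
  by_cases h1 : x.1.1 = i + 1 <;> by_cases h2 : x.1.2 = i + 1 <;>
    simp [h1, h2, qpoly_cons, qpoly_nil, vv, mul_add, add_comm]

omit [N487b59b3 α] in
theorem wq_pdq (i : ℕ) {A : Qd} (hA : wq A) : wq (pdq i A) := by
  intro w hw
  obtain ⟨x, hx, hw⟩ := List.mem_flatMap.1 hw
  have h := hA x hx
  rcases List.mem_append.1 hw with hw | hw
  · split_ifs at hw
    · rw [List.mem_singleton] at hw
      rw [hw]
      exact h
    · simp at hw
  · split_ifs at hw
    · rw [List.mem_singleton] at hw
      rw [hw]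
      exact h
    · simp at hw

theorem fp_pdq {i : α → ℕ} {A : α → Qd} (hi : FP i) (hA : FP A) : FP fun a => pdq (i a) (A a) := by
  have hi1 : FP fun q : α × ((ℕ × ℕ) × El) => i q.1 + 1 :=
    FP.natAdd (hi.comp FP.fst) (FP.const 1)
  have h1 : FP fun q : α × ((ℕ × ℕ) × El) =>
      (if decide (q.2.1.1 = i q.1 + 1) then [(((0, q.2.1.2), q.2.2) : (ℕ × ℕ) × El)] else []) ++
      (if decide (q.2.1.2 = i q.1 + 1) then [(((q.2.1.1, 0), q.2.2) : (ℕ × ℕ) × El)] else []) := by
    refine FP.append (FP.ite (FP.natEq (by fun_prop) hi1) (FP.cons (FP.pair (FP.pair (FP.const 0)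
      (by fun_prop)) (by fun_prop)) (FP.const [])) (FP.const []))
      (FP.ite (FP.natEq (by fun_prop) hi1) (FP.cons (FP.pair (FP.pair (by fun_prop)
      (FP.const 0)) (by fun_prop)) (FP.const [])) (FP.const []))
  exact fp_flatMap hA h1

theorem FD.pderiv {f : α → MvPolynomial ℕ ℚ} (hf : FD f) {i : α → ℕ} (hi : FP i) :
    FD fun a => MvPolynomial.pderiv (i a) (f a) := by
  obtain ⟨q, h1, h2, h3⟩ := hf
  exact ⟨fun a => pdq (i a) (q a), fp_pdq hi h1, fun a => wq_pdq _ (h2 a), fun a => by
    beta_reduce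
    rw [qpoly_pdq, h3]⟩

/-- the `k`-th summand of the derivative of a product of powers -/
def pdl (i k : ℕ) (l : List (Qd × List Bool)) : List (Qd × List Bool) :=
  (pdq i (l.getD k ([], [])).1, [true]) :: ((l.getD k ([], [])).1, (l.getD k ([], [])).2.tail) ::
    (l.take k ++ l.drop (k + 1))

/-- the number of factors -/
def pdn (k : ℕ) (l : List (Qd × List Bool)) : ℕ := (l.getD k ([], [])).2.length

omit [N487b59b3 α] in
theorem pderiv_pval (i : ℕ) (l : List (Qd × List Bool)) (R : ℕ) (hR : l.length ≤ R) :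
    MvPolynomial.pderiv i (pval l) = ∑ k ∈ Finset.range R, C ((pdn k l : ℕ) : ℚ) *
      pval (pdl i k l) := by
  induction l generalizing R with
  | nil =>
    rw [pval_nil, Finset.sum_eq_zero]
    · simp
    · intro k _
      simp [pdn]
  | cons q l ih =>
    obtain ⟨R, rfl⟩ : ∃ r, R = r + 1 := ⟨R - 1, by simp only [List.length_cons] at hR; omega⟩
    rw [Finset.sum_range_succ', pval_cons, Derivation.leibniz,
      ih R (by simpa using hR), Derivation.leibniz_pow, smul_eq_mul, smul_eq_mul,
      Finset.mul_sum]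
    congr 1
    · refine Finset.sum_congr rfl fun k _ => ?_
      have h1 : pdn (k + 1) (q :: l) = pdn k l := rfl
      have h2 : pval (pdl i (k + 1) (q :: l)) = qpoly q.1 ^ q.2.length * pval (pdl i k l) := by
        simp only [pdl, List.getD_cons_succ, List.take_succ_cons, List.drop_succ_cons,
          List.cons_append, pval_cons]
        ring
      rw [h1, h2]
      ring
    · have h1 : pdn 0 (q :: l) = q.2.length := rfl
      have h2 : pval (pdl i 0 (q :: l)) = MvPolynomial.pderiv i (qpoly q.1) *
          (qpoly q.1 ^ (q.2.length - 1) * pval l) := by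
        simp only [pdl, List.getD_cons_zero, List.take_zero, List.nil_append,
          List.drop_succ_cons, List.drop_zero, pval_cons, qpoly_pdq, List.length_tail,
          List.length_singleton, pow_one]
      rw [h1, h2, nsmul_eq_mul, smul_eq_mul]
      have h3 : ((q.2.length : ℕ) : MvPolynomial ℕ ℚ) = C ((q.2.length : ℕ) : ℚ) := by simp
      rw [h3]
      ring

/-- the `k`-th summand of the derivative of a term -/
def pdt (i k : ℕ) (t : Tm) : Tm := (elMul t.1 ((pdn k t.2, 0), 1), pdl i k t.2)

omit [N487b59b3 α] in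
theorem tval_pdt (i : ℕ) (t : Tm) (R : ℕ) (hR : t.2.length ≤ R) :
    MvPolynomial.pderiv i (tval t) = ∑ k ∈ Finset.range R, tval (pdt i k t) := by
  rw [tval, pderiv_C_mul, pderiv_pval i t.2 R hR, Finset.mul_sum]
  refine Finset.sum_congr rfl fun k _ => ?_
  have h1 : toQ ((pdn k t.2, 0), 1) = (pdn k t.2 : ℚ) := by simp [toQ]
  simp only [pdt, tval, toQ_mul, h1, C_mul]
  ring

omit [N487b59b3 α] in
theorem wf_pdt {R : ℕ} {t : Tm} (ht : wf R t) (i k : ℕ) (hk : k < R) : wf (R + 1) (pdt i k t) := by
  obtain ⟨a1, a2, a3⟩ := ht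
  have hd : ∀ x ∈ (t.2.getD k ([], [])).1, x.2.2 ≠ 0 := by
    rcases Nat.lt_or_ge k t.2.length with h | h
    · rw [List.getD_eq_getElem _ _ h]
      exact a3 _ (List.getElem_mem h)
    · rw [List.getD_eq_default _ _ h]
      intro x hx
      simp at hx
  refine ⟨mul_ne_zero a1 one_ne_zero, ?_, fun q hq => ?_⟩
  · simp only [pdt, pdl, List.length_cons, List.length_append, List.length_take, List.length_drop]
    omega
  · rw [pdt, pdl] at hq
    rcases List.mem_cons.1 hq with rfl | hq
    · exact wq_pdq i hd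
    · rcases List.mem_cons.1 hq with rfl | hq
      · exact hd
      · rcases List.mem_append.1 hq with hq | hq
        · exact a3 q (List.mem_of_mem_take hq)
        · exact a3 q (List.mem_of_mem_drop hq)

theorem fp_lengthN [Inhabited β] {f : α → List β} (hf : FP f) : FP fun a => (f a).length := by
  have h1 : FP fun p : List β × ℕ => p.1.foldl (fun (s : ℕ) (_ : β) => s + 1) p.2 := by
    refine FP.foldl (g := fun (s : ℕ) (_ : β) => s + 1) (FP.natAdd FP.fst (FP.const 1))
      (B := fun n => n + n) (by fun_prop) ?_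
    intro l n
    have h2 : l.foldl (fun (s : ℕ) (_ : β) => s + 1) n = n + l.length := by
      induction l generalizing n with
      | nil => rfl
      | cons b l ih =>
        rw [List.foldl_cons, ih, List.length_cons]
        ring
    rw [h2, sz_nat, sz_nat]
    have h0 := length_le_sz l
    have h5 : (n + l.length).size ≤ n.size + l.length := by
      rw [Nat.size_le, pow_add]
      have h6 := Nat.lt_size_self n
      have h7 : l.length < 2 ^ l.length := Nat.lt_two_pow_self
      have h8 : (n + 1) * (l.length + 1) ≤ 2 ^ n.size * 2 ^ l.length := Nat.mul_le_mul h6 h7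
      nlinarith
    omega
  have h2 := h1.comp (hf.pair (FP.const 0))
  refine (congrArg FP (funext fun a => ?_)).mp h2
  have h3 : ∀ (l : List β) (n : ℕ), l.foldl (fun (s : ℕ) (_ : β) => s + 1) n = n + l.length := by
    intro l
    induction l with
    | nil => intro n; rfl
    | cons b l ih =>
      intro n
      rw [List.foldl_cons, ih, List.length_cons]
      ring
  rw [h3, zero_add]

theorem fp_pdt {i : α → ℕ} {t : α → Tm} (hi : FP i) (ht : FP t) (k : ℕ) :
    FP fun a => pdt (i a) k (t a) := by
  have h0 : FP fun a => (t a).2 := ht.snd'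
  have h1 : FP fun a => (t a).2.getD k ([], []) := fp_getD h0 k _
  have h2 : FP fun a => (t a).2.take k ++ (t a).2.drop (k + 1) := by
    have h3 := FP.take h0 (FP.const (α := α) (List.replicate k true))
    have h4 := FP.drop h0 (FP.const (α := α) (List.replicate (k + 1) true))
    simp only [List.length_replicate] at h3 h4
    exact FP.append h3 h4
  have h5 : FP fun a => pdn k (t a).2 := fp_lengthN h1.snd'
  exact FP.pair (fp_elMul ht.fst' (FP.pair (FP.pair h5 (FP.const 0)) (FP.const 1)))
    (FP.cons (FP.pair (fp_pdq hi h1.fst') (FP.const [true]))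
      (FP.cons (FP.pair h1.fst' (FP.tail h1.snd')) h2))

/-- partial derivatives of sums of products of powers -/
theorem FT.pderiv {R : ℕ} {f : α → MvPolynomial ℕ ℚ} (hf : FT R f) {i : α → ℕ} (hi : FP i) :
    FT (R + 1) fun a => MvPolynomial.pderiv (i a) (f a) := by
  obtain ⟨T, h1, h2, h3⟩ := hf
  have h4 : ∀ k : ℕ, FT (R + 1) fun a => if decide (k < R) then
      ((T a).map fun t => tval (pdt (i a) k t)).sum else 0 := by
    intro k
    by_cases hk : k < R
    · have h5 : FP fun a => (T a).map fun t => pdt (i a) k t :=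
        fp_map h1 (fp_pdt (hi.comp FP.fst) FP.snd k)
      refine ⟨fun a => (T a).map fun t => pdt (i a) k t, h5, fun a t ht => ?_, fun a => ?_⟩
      · obtain ⟨s, hs, rfl⟩ := List.mem_map.1 ht
        exact wf_pdt (h2 a s hs) _ _ hk
      · simp only [hk, decide_true, if_true, List.map_map]
        rfl
    · exact (FT.zero.mono (Nat.zero_le _)).congr fun a => by simp [hk]
  refine (FT.sum (Finset.range R) h4).congr fun a => ?_
  rw [h3, map_list_sum, List.map_map]
  have h6 : ∑ k ∈ Finset.range R, (if decide (k < R) then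
      ((T a).map fun t => tval (pdt (i a) k t)).sum else 0)
      = ∑ k ∈ Finset.range R, ((T a).map fun t => tval (pdt (i a) k t)).sum :=
    Finset.sum_congr rfl fun k hk => by simp [Finset.mem_range.1 hk]
  rw [h6, ← sum_map_finset_sum]
  congr 1
  exact List.map_congr_left fun t ht => tval_pdt (i a) t R (h2 a t ht).2.1

/-! ## Truncated inverses -/

omit [N487b59b3 α] in
theorem constantCoeff_vv (k : ℕ) : constantCoeff (vv k) = if k = 0 then 1 else 0 := by
  cases k with
  | zero => simp [vv]
  | succ j => simp [vv]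

theorem FD.coeffZero {f : α → MvPolynomial ℕ ℚ} (hf : FD f) : FQ fun a => constantCoeff (f a) := by
  obtain ⟨q, h1, h2, h3⟩ := hf
  have h4 : FQ fun p : α × ((ℕ × ℕ) × El) => if decide (p.2.1.1 = 0) then
      (if decide (p.2.1.2 = 0) then toQ p.2.2 else 0) else 0 :=
    FQ.ite (FP.natEq (by fun_prop) (FP.const 0)) (FQ.ite (FP.natEq (by fun_prop) (FP.const 0))
      (FQ.toQ.comp (by fun_prop)) (FQ.const 0)) (FQ.const 0)
  refine ((FQ.listSum h4).comp (FP.pair FP.id h1)).congr fun a => ?_
  rw [h3, qpoly_eq, map_list_sum, List.map_map]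
  congr 1
  refine List.map_congr_left fun x _ => ?_
  rw [Function.comp_apply, map_mul, map_mul, constantCoeff_vv, constantCoeff_vv, constantCoeff_C]
  by_cases h5 : x.1.1 = 0 <;> by_cases h6 : x.1.2 = 0 <;> simp [h5, h6]

/-- the unary form of a number below the length of a list -/
def unr (M : List Bool) (i : ℕ) : List Bool :=
  (List.range M.length).flatMap fun j => if decide (i - j = 0) then [] else [true]

omit [N487b59b3 α] in
theorem unr_length {M : List Bool} {i : ℕ} (hi : i ≤ M.length) : (unr M i).length = i := by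
  have h : ∀ n : ℕ, ((List.range n).flatMap fun j => if decide (i - j = 0) then
      ([] : List Bool) else [true]).length = min i n := by
    intro n
    induction n with
    | zero => simp
    | succ n ih =>
      rw [List.range_succ, List.flatMap_append, List.length_append, ih, List.flatMap_singleton]
      by_cases h1 : i - n = 0
      · simp only [h1, decide_true, if_true, List.length_nil]
        omega
      · simp only [h1, decide_false, Bool.false_eq_true, if_false, List.length_singleton]
        omega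
  rw [unr, h, min_eq_left hi]

theorem fp_unr {M : α → List Bool} {i : α → ℕ} (hM : FP M) (hi : FP i) :
    FP fun a => unr (M a) (i a) := by
  have h1 : FP fun q : α × ℕ => if decide (i q.1 - q.2 = 0) then ([] : List Bool) else [true] :=
    FP.ite (FP.natEq (FP.natSub (hi.comp FP.fst) FP.snd) (FP.const 0)) (FP.const [])
      (FP.const [true])
  exact fp_flatMap (FP.range hM) h1

/-- truncated inverses of quadratic polynomials -/
theorem FT.uinv {g : α → MvPolynomial ℕ ℚ} (hg : FD g) {M : α → List Bool} (hM : FP M) :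
    FT 1 fun a => PQE.uinv (M a).length (g a) := by
  have h1 : FQ fun a => constantCoeff (g a) := hg.coeffZero
  have h2 : FD fun a => g a - C (constantCoeff (g a)) :=
    (FD.add hg (FD.const ((FQ.const (-1)).mul h1))).congr fun a => by
      rw [C_mul, C_neg, C_1]
      ring
  have h3 : FP fun q : α × ℕ => unr (M q.1) q.2 := fp_unr (hM.comp FP.fst) FP.snd
  have h4 : FT 1 fun q : α × ℕ => (g q.1 - C (constantCoeff (g q.1))) ^ (unr (M q.1) q.2).length :=
    FT.atom (h2.comp FP.fst) h3
  have h5 : FQ fun q : α × ℕ => (-(constantCoeff (g q.1))⁻¹) ^ (unr (M q.1) q.2).length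
      * (constantCoeff (g q.1))⁻¹ := by
    have h6 : FQ fun q : α × ℕ => (constantCoeff (g q.1))⁻¹ := FQ.inv (h1.comp FP.fst)
    refine FQ.mul (FQ.powU (((FQ.const (-1)).mul h6).congr fun q => by ring) h3) h6
  have h6 : FP fun a => List.range (true :: M a).length := FP.range (FP.cons (FP.const true) hM)
  refine (FT.listSum h6 (FT.smul h5 h4)).congr fun a => ?_
  rw [PQE.uinv, ← sum_map_range, List.length_cons]
  congr 1
  refine List.map_congr_left fun i hi => ?_
  have hi' : i ≤ (M a).length := Nat.lt_succ_iff.1 (List.mem_range.1 hi)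
  have h7 : ∀ c : ℚ, (-1) ^ i / c ^ (i + 1) = (-c⁻¹) ^ i * c⁻¹ := by
    intro c
    rw [neg_pow c⁻¹, inv_pow, pow_succ c, div_eq_mul_inv, mul_inv]
    ring
  rw [unr_length hi', h7]

end

end Pool.Agent.PQE
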