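import Mathlib

/-!
# The Fischer inner product on polynomials over the rationals

`fis p q = ∑ α! p_α q_α`. It is positive definite, and multiplication by `x_i` is adjoint to `∂/∂x_i`.
-/

open scoped BigOperators

namespace Pool.Agent.PQE

open MvPolynomial

variable {σ : Type*}

/-- `α!` -/
def fac (a : σ →₀ ℕ) : ℕ := a.prod fun _ k => k.factorial

theorem fac_pos (a : σ →₀ ℕ) : 0 < fac a :=
  Finset.prod_pos fun _ _ => Nat.factorial_pos _

/-- the Fischer inner product -/
noncomputable def fis (p q : MvPolynomial σ ℚ) : ℚ :=
  ∑ a ∈ p.support, (fac a : ℚ) * p.coeff a * q.coeff a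

theorem fis_eq_sum (p q : MvPolynomial σ ℚ) {s : Finset (σ →₀ ℕ)} (hs : p.support ⊆ s) :
    fis p q = ∑ a ∈ s, (fac a : ℚ) * p.coeff a * q.coeff a := by
  classical
  rw [fis]
  refine Finset.sum_subset hs fun a _ ha => ?_
  rw [MvPolynomial.notMem_support_iff.1 ha, mul_zero, zero_mul]

theorem fis_comm (p q : MvPolynomial σ ℚ) : fis p q = fis q p := by
  classical
  rw [fis_eq_sum p q (s := p.support ∪ q.support) Finset.subset_union_left,
    fis_eq_sum q p (s := p.support ∪ q.support) Finset.subset_union_right]
  exact Finset.sum_congr rfl fun a _ => by ring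

theorem fis_add_left (p p' q : MvPolynomial σ ℚ) : fis (p + p') q = fis p q + fis p' q := by
  classical
  rw [fis_eq_sum (p + p') q (s := p.support ∪ p'.support) MvPolynomial.support_add,
    fis_eq_sum p q (s := p.support ∪ p'.support) Finset.subset_union_left,
    fis_eq_sum p' q (s := p.support ∪ p'.support) Finset.subset_union_right,
    ← Finset.sum_add_distrib]
  exact Finset.sum_congr rfl fun a _ => by rw [coeff_add]; ring

theorem fis_C_mul_left (c : ℚ) (p q : MvPolynomial σ ℚ) : fis (C c * p) q = c * fis p q := by
  classical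
  have h : (C c * p).support ⊆ p.support := by
    rw [C_mul']
    exact MvPolynomial.support_smul
  rw [fis_eq_sum _ _ h, fis_eq_sum p q (le_refl _), Finset.mul_sum]
  exact Finset.sum_congr rfl fun a _ => by rw [coeff_C_mul]; ring

theorem fis_zero_left (q : MvPolynomial σ ℚ) : fis 0 q = 0 := by
  rw [fis_eq_sum 0 q (s := ∅) (by simp), Finset.sum_empty]

/-- as a linear map in the left argument -/
noncomputable def fisL (q : MvPolynomial σ ℚ) : MvPolynomial σ ℚ →ₗ[ℚ] ℚ where
  toFun p := fis p q
  map_add' p p' := fis_add_left p p' q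
  map_smul' c p := by
    rw [RingHom.id_apply, smul_eq_mul, smul_eq_C_mul, fis_C_mul_left]

theorem fis_sum_left {ι : Type*} (s : Finset ι) (f : ι → MvPolynomial σ ℚ) (q : MvPolynomial σ ℚ) :
    fis (∑ i ∈ s, f i) q = ∑ i ∈ s, fis (f i) q :=
  map_sum (fisL q) f s

theorem fis_add_right (p q q' : MvPolynomial σ ℚ) : fis p (q + q') = fis p q + fis p q' := by
  rw [fis_comm, fis_add_left, fis_comm q p, fis_comm q' p]

theorem fis_C_mul_right (c : ℚ) (p q : MvPolynomial σ ℚ) : fis p (C c * q) = c * fis p q := by
  rw [fis_comm, fis_C_mul_left, fis_comm q p]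

theorem fis_sum_right {ι : Type*} (s : Finset ι) (p : MvPolynomial σ ℚ)
    (f : ι → MvPolynomial σ ℚ) : fis p (∑ i ∈ s, f i) = ∑ i ∈ s, fis p (f i) := by
  rw [fis_comm, fis_sum_left]
  exact Finset.sum_congr rfl fun i _ => fis_comm _ _

theorem fis_self_nonneg (p : MvPolynomial σ ℚ) : 0 ≤ fis p p := by
  rw [fis_eq_sum p p (le_refl _)]
  refine Finset.sum_nonneg fun a _ => ?_
  rw [mul_assoc]
  exact mul_nonneg (Nat.cast_nonneg _) (mul_self_nonneg _)

/-- positive definite -/
theorem fis_self_eq_zero {p : MvPolynomial σ ℚ} : fis p p = 0 ↔ p = 0 := by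
  constructor
  · intro h
    rw [fis_eq_sum p p (le_refl _)] at h
    have h1 := (Finset.sum_eq_zero_iff_of_nonneg fun a _ => by
      rw [mul_assoc]
      exact mul_nonneg (Nat.cast_nonneg _) (mul_self_nonneg _)).1 h
    ext a
    rw [coeff_zero]
    by_contra h2
    have h3 := h1 a (MvPolynomial.mem_support_iff.2 h2)
    have h4 : (fac a : ℚ) ≠ 0 := Nat.cast_ne_zero.2 (fac_pos a).ne'
    rw [mul_assoc, mul_eq_zero, mul_self_eq_zero] at h3
    rcases h3 with h3 | h3
    · exact h4 h3
    · exact h2 h3
  · rintro rfl
    exact fis_zero_left 0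

theorem fis_monomial_left (a : σ →₀ ℕ) (c : ℚ) (q : MvPolynomial σ ℚ) :
    fis (monomial a c) q = (fac a : ℚ) * c * q.coeff a := by
  classical
  rw [fis_eq_sum _ _ (s := {a}) (by
    intro b hb
    rw [Finset.mem_singleton]
    by_contra h
    rw [mem_support_iff, coeff_monomial, if_neg (Ne.symm h)] at hb
    exact hb rfl), Finset.sum_singleton, coeff_monomial, if_pos rfl]

theorem fac_add_single [DecidableEq σ] (a : σ →₀ ℕ) (i : σ) :
    fac (a + Finsupp.single i 1) = (a i + 1) * fac a := by
  classical
  have h2 : fac a = ∏ j ∈ insert i a.support, (a j).factorial := by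
    rw [fac, Finsupp.prod]
    refine Finset.prod_subset (Finset.subset_insert _ _) fun j _ hj => ?_
    rw [Finsupp.notMem_support_iff.1 hj, Nat.factorial_zero]
  have h3 : fac (a + Finsupp.single i 1) = ∏ j ∈ insert i a.support,
      ((a + Finsupp.single i 1 : σ →₀ ℕ) j).factorial := by
    rw [fac, Finsupp.prod]
    refine Finset.prod_subset ?_ fun j _ hj => ?_
    · intro j hj
      rw [Finset.mem_insert]
      by_cases h : j = i
      · exact Or.inl h
      · refine Or.inr (Finsupp.mem_support_iff.2 fun h' => ?_)
        rw [Finsupp.mem_support_iff, Finsupp.add_apply, h', Finsupp.single_apply,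
          if_neg (Ne.symm h), add_zero] at hj
        exact hj rfl
    · rw [Finsupp.notMem_support_iff.1 hj, Nat.factorial_zero]
  rw [h2, h3, ← Finset.mul_prod_erase _ _ (Finset.mem_insert_self i _),
    ← Finset.mul_prod_erase _ _ (Finset.mem_insert_self i _), Finsupp.add_apply,
    Finsupp.single_apply, if_pos rfl, Nat.factorial_succ, mul_assoc]
  congr 2
  refine Finset.prod_congr rfl fun j hj => ?_
  rw [Finsupp.add_apply, Finsupp.single_apply, if_neg (Ne.symm (Finset.ne_of_mem_erase hj)),
    add_zero]

/-- multiplication by `x_i` is adjoint to `∂/∂x_i` -/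
theorem fis_X_mul (i : σ) (p q : MvPolynomial σ ℚ) : fis (X i * p) q = fis p (pderiv i q) := by
  classical
  induction p using MvPolynomial.induction_on' with
  | monomial a c =>
    have h1 : X i * monomial a c = monomial (a + Finsupp.single i 1) c := by
      rw [X, monomial_mul, one_mul, add_comm]
    rw [h1, fis_monomial_left, fis_monomial_left]
    have h2 : (pderiv i q).coeff a = (a i + 1 : ℚ) * q.coeff (a + Finsupp.single i 1) := by
      induction q using MvPolynomial.induction_on' with
      | monomial b d =>
        rw [pderiv_monomial, coeff_monomial, coeff_monomial]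
        by_cases hb : b = a + Finsupp.single i 1
        · subst hb
          rw [if_pos (by rw [add_tsub_cancel_right]), if_pos rfl, Finsupp.add_apply,
            Finsupp.single_apply, if_pos rfl]
          push_cast
          ring
        · rw [if_neg hb, mul_zero]
          by_cases hbi : b i = 0
          · rw [hbi]
            simp
          · rw [if_neg]
            intro h
            apply hb
            rw [← h]
            ext j
            rw [Finsupp.add_apply, Finsupp.tsub_apply, Finsupp.single_apply]
            split_ifs with hj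
            · subst hj
              omega
            · omega
      | add q q' hq hq' =>
        rw [map_add, coeff_add, hq, hq', coeff_add]
        ring
    rw [h2, fac_add_single]
    push_cast
    ring
  | add p p' hp hp' =>
    rw [mul_add, fis_add_left, hp, hp', fis_add_left]

theorem fis_mul_X (i : σ) (p q : MvPolynomial σ ℚ) : fis p (X i * q) = fis (pderiv i p) q := by
  rw [fis_comm, fis_X_mul, fis_comm]

end Pool.Agent.PQE
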