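import Pool.Agent.PQE.Fis

set_option autoImplicit false

/-!
# The Fischer inner product of powers of two quadratic forms

A recursion with matrices of rational numbers computes `fis (f ^ D) (g ^ D)` for quadratic forms
`f = ∑ a i j x_i x_j` and `g = ∑ b i j x_i x_j`.
-/

open scoped BigOperators

namespace Pool.Agent.PQE

open MvPolynomial

variable {σ : Type*}

/-- the quadratic form with coefficients `a` on the index set `N` -/
noncomputable def quad (N : Finset σ) (a : σ → σ → ℚ) : MvPolynomial σ ℚ :=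
  ∑ i ∈ N, ∑ j ∈ N, C (a i j) * (X i * X j)

/-- the partial derivatives of a quadratic form -/
noncomputable def lin (N : Finset σ) (a : σ → σ → ℚ) (i : σ) : MvPolynomial σ ℚ :=
  ∑ j ∈ N, C (a i j + a j i) * X j

theorem pderiv_quad {N : Finset σ} (a : σ → σ → ℚ) {i : σ} (hi : i ∈ N) :
    pderiv i (quad N a) = lin N a i := by
  classical
  have h1 : ∀ k l : σ, pderiv i (C (a k l) * (X k * X l) : MvPolynomial σ ℚ)
      = (if k = i then C (a k l) * X l else 0) + (if l = i then C (a k l) * X k else 0) := by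
    intro k l
    rw [pderiv_C_mul, Derivation.leibniz, pderiv_X, pderiv_X, smul_eq_mul, smul_eq_mul]
    by_cases hk : k = i
    · by_cases hl : l = i
      · subst hk hl
        simp [mul_add]
      · subst hk
        simp [hl]
    · by_cases hl : l = i
      · subst hl
        simp [hk]
      · simp [hk, hl]
  rw [quad, map_sum, lin]
  simp_rw [map_sum, h1, Finset.sum_add_distrib]
  have h2 : ∑ k ∈ N, ∑ l ∈ N, (if k = i then C (a k l) * X l else (0 : MvPolynomial σ ℚ))
      = ∑ l ∈ N, C (a i l) * X l := by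
    rw [Finset.sum_eq_single_of_mem i hi]
    · exact Finset.sum_congr rfl fun l _ => if_pos rfl
    · intro k _ hk
      exact Finset.sum_eq_zero fun l _ => if_neg hk
  have h3 : ∑ k ∈ N, ∑ l ∈ N, (if l = i then C (a k l) * X k else (0 : MvPolynomial σ ℚ))
      = ∑ k ∈ N, C (a k i) * X k := by
    refine Finset.sum_congr rfl fun k _ => ?_
    rw [Finset.sum_eq_single_of_mem i hi]
    · exact if_pos rfl
    · intro l _ hl
      exact if_neg hl
  rw [h2, h3, ← Finset.sum_add_distrib]
  refine Finset.sum_congr rfl fun j _ => ?_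
  rw [C_add, add_mul]

theorem pderiv_lin {N : Finset σ} (a : σ → σ → ℚ) (i : σ) {j : σ} (hj : j ∈ N) :
    pderiv j (lin N a i) = C (a i j + a j i) := by
  classical
  rw [lin, map_sum, Finset.sum_eq_single_of_mem j hj]
  · rw [pderiv_C_mul, pderiv_X_self, mul_one]
  · intro k _ hk
    rw [pderiv_C_mul, pderiv_X_of_ne hk, mul_zero]

/-- the matrices of the recursion -/
noncomputable def gram (f g : MvPolynomial σ ℚ) (D : ℕ) (i j : σ) : ℚ :=
  fis (pderiv i (pderiv j (f ^ D))) (g ^ (D - 1))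

theorem pderiv_comm (i j : σ) (p : MvPolynomial σ ℚ) :
    pderiv i (pderiv j p) = pderiv j (pderiv i p) := by
  classical
  have h : ⁅(pderiv i : Derivation ℚ (MvPolynomial σ ℚ) (MvPolynomial σ ℚ)),
      (pderiv j : Derivation ℚ (MvPolynomial σ ℚ) (MvPolynomial σ ℚ))⁆ = 0 := by
    apply MvPolynomial.derivation_ext
    intro k
    have hc : ∀ i k : σ, ∃ c : ℚ, pderiv i (X k : MvPolynomial σ ℚ) = C c := by
      intro i k
      by_cases h : k = i
      · subst h
        exact ⟨1, by rw [pderiv_X_self, C_1]⟩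
      · exact ⟨0, by rw [pderiv_X_of_ne h, C_0]⟩
    obtain ⟨c, hc1⟩ := hc i k
    obtain ⟨d, hd⟩ := hc j k
    rw [Derivation.commutator_apply, hc1, hd, pderiv_C, pderiv_C, sub_zero]
    rfl
  have h1 := congrArg (fun d : Derivation ℚ (MvPolynomial σ ℚ) (MvPolynomial σ ℚ) => d p) h
  rw [Derivation.commutator_apply] at h1
  exact sub_eq_zero.1 h1

theorem pderiv_pow_quad {N : Finset σ} (a : σ → σ → ℚ) {i : σ} (hi : i ∈ N) (D : ℕ) :
    pderiv i (quad N a ^ (D + 1)) = C ((D : ℚ) + 1) * (quad N a ^ D * lin N a i) := by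
  rw [Derivation.leibniz_pow, pderiv_quad a hi, Nat.add_sub_cancel, smul_eq_mul, nsmul_eq_mul]
  simp

/-- the second part of the recursion -/
theorem gram_mid {N : Finset σ} (a b : σ → σ → ℚ) {k : σ} (j : σ) (hk : k ∈ N) (D : ℕ) :
    fis (X k * pderiv j (quad N a ^ (D + 1))) (quad N b ^ (D + 1))
      = ((D : ℚ) + 1) * ∑ l ∈ N, (b k l + b l k) * gram (quad N a) (quad N b) (D + 1) l j := by
  rw [fis_X_mul, pderiv_pow_quad b hk, fis_C_mul_right]
  congr 1
  rw [lin, Finset.mul_sum, fis_sum_right]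
  refine Finset.sum_congr rfl fun l _ => ?_
  rw [mul_left_comm, fis_C_mul_right, mul_comm _ (X l), fis_mul_X, gram, Nat.add_sub_cancel]

theorem gram_succ {N : Finset σ} (a b : σ → σ → ℚ) {i j : σ} (hi : i ∈ N) (hj : j ∈ N) (D : ℕ) :
    gram (quad N a) (quad N b) (D + 1) i j
      = ((D : ℚ) + 1) * fis (quad N a ^ D) (quad N b ^ D) * (a i j + a j i)
        + ((D : ℚ) + 1) * D * ∑ k ∈ N, ∑ l ∈ N, (a i k + a k i) * (b k l + b l k)
          * gram (quad N a) (quad N b) D l j := by
  rw [gram, Nat.add_sub_cancel, pderiv_pow_quad a hj, pderiv_C_mul, fis_C_mul_left,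
    Derivation.leibniz, pderiv_lin a j hi, fis_add_left, smul_eq_mul, smul_eq_mul,
    mul_comm (quad N a ^ D) (C _), fis_C_mul_left]
  rw [mul_add]
  congr 1
  · rw [add_comm (a j i)]
    ring
  · rw [mul_assoc]
    congr 1
    cases D with
    | zero =>
      simp [fis_zero_left]
    | succ D =>
      rw [pderiv_pow_quad a hi, show lin N a j * (C ((D : ℚ) + 1) * (quad N a ^ D * lin N a i))
        = ∑ k ∈ N, C (a i k + a k i) * (X k * pderiv j (quad N a ^ (D + 1))) by
          rw [pderiv_pow_quad a hj, lin, lin, Finset.mul_sum, Finset.mul_sum, Finset.mul_sum]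
          refine Finset.sum_congr rfl fun k _ => ?_
          ring]
      rw [fis_sum_left, Finset.mul_sum]
      refine Finset.sum_congr rfl fun k hk => ?_
      rw [fis_C_mul_left, gram_mid a b j hk, Finset.mul_sum, Finset.mul_sum, Finset.mul_sum]
      refine Finset.sum_congr rfl fun l _ => ?_
      push_cast
      ring

theorem fis_pow_succ {N : Finset σ} (a b : σ → σ → ℚ) (D : ℕ) :
    fis (quad N a ^ (D + 1)) (quad N b ^ (D + 1))
      = 1 / 2 * ∑ i ∈ N, ∑ j ∈ N, (b i j + b j i) * gram (quad N a) (quad N b) (D + 1) j i := by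
  have h1 : fis (quad N a ^ (D + 1)) (quad N b ^ (D + 1))
      = ∑ i ∈ N, ∑ j ∈ N, b i j * gram (quad N a) (quad N b) (D + 1) j i := by
    rw [pow_succ' (quad N b) D]
    nth_rewrite 2 [quad]
    rw [Finset.sum_mul, fis_sum_right]
    refine Finset.sum_congr rfl fun i _ => ?_
    rw [Finset.sum_mul, fis_sum_right]
    refine Finset.sum_congr rfl fun j _ => ?_
    rw [mul_assoc, mul_assoc, fis_C_mul_right, fis_mul_X, fis_mul_X, gram, Nat.add_sub_cancel]
  have h2 : ∑ i ∈ N, ∑ j ∈ N, b j i * gram (quad N a) (quad N b) (D + 1) j i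
      = ∑ i ∈ N, ∑ j ∈ N, b i j * gram (quad N a) (quad N b) (D + 1) j i := by
    rw [Finset.sum_comm]
    refine Finset.sum_congr rfl fun i _ => Finset.sum_congr rfl fun j _ => ?_
    rw [gram, gram, pderiv_comm]
  simp_rw [add_mul, Finset.sum_add_distrib]
  rw [h2, ← h1]
  ring

/-- any sequences satisfying the recursion compute the inner products of the powers -/
theorem fis_quad_pow {N : Finset σ} (a b : σ → σ → ℚ) (m : ℕ → ℚ) (G : ℕ → σ → σ → ℚ)
    (hm0 : m 0 = 1)
    (hG : ∀ D : ℕ, ∀ i ∈ N, ∀ j ∈ N, G (D + 1) i j = ((D : ℚ) + 1) * m D * (a i j + a j i)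
      + ((D : ℚ) + 1) * D * ∑ k ∈ N, ∑ l ∈ N, (a i k + a k i) * (b k l + b l k) * G D l j)
    (hm : ∀ D : ℕ, m (D + 1) = 1 / 2 * ∑ i ∈ N, ∑ j ∈ N, (b i j + b j i) * G (D + 1) j i)
    (D : ℕ) : fis (quad N a ^ D) (quad N b ^ D) = m D := by
  have key : ∀ D : ℕ, fis (quad N a ^ D) (quad N b ^ D) = m D ∧
      ∀ i ∈ N, ∀ j ∈ N, gram (quad N a) (quad N b) (D + 1) i j = G (D + 1) i j := by
    intro D
    induction D with
    | zero =>
      have h0 : fis (quad N a ^ 0) (quad N b ^ 0) = m 0 := by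
        rw [pow_zero, pow_zero, hm0]
        have h := fis_monomial_left (0 : σ →₀ ℕ) (1 : ℚ) 1
        rw [show (monomial (0 : σ →₀ ℕ)) (1 : ℚ) = 1 from rfl] at h
        rw [h]
        simp [fac]
      refine ⟨h0, fun i hi j hj => ?_⟩
      rw [gram_succ a b hi hj, hG 0 i hi j hj, h0]
      simp
    | succ D ih =>
      have h0 : fis (quad N a ^ (D + 1)) (quad N b ^ (D + 1)) = m (D + 1) := by
        rw [fis_pow_succ, hm]
        congr 1
        exact Finset.sum_congr rfl fun i hi => Finset.sum_congr rfl fun j hj => by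
          rw [ih.2 j hj i hi]
      refine ⟨h0, fun i hi j hj => ?_⟩
      rw [gram_succ a b hi hj, hG (D + 1) i hi j hj, h0]
      congr 2
      exact Finset.sum_congr rfl fun k _ => Finset.sum_congr rfl fun l hl => by
        rw [ih.2 l hl j hj]
  exact (key D).1

end Pool.Agent.PQE
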