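import Pool.Agent.PQE.FT
import Pool.Agent.PQE.Crit

set_option autoImplicit false

/-!
Powers, factorials and the polarisation of a product of boundedly many powers in polynomial time.
-/

namespace Pool.Agent.PQE

open N487b59b3 N68a2faeb Pool.Agent.Helper22 Pool.Agent.Helper6.WB Pool.Agent.Helper6.SP
open MvPolynomial

section

variable {α β γ : Type} [N487b59b3 α] [N487b59b3 β] [N487b59b3 γ]

@[fun_prop]
theorem FP.len {f : α → List β} (hf : FP f) : FP fun a => (f a).length := by
  have h1 : FP fun a => (List.range (true :: un (f a).length).length).reverse.headD 0 :=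
    FP.headD (FP.reverse (FP.range (FP.cons (FP.const true) (FP.un_length hf)))) 0
  refine (congrArg FP (funext fun a => ?_)).mp h1
  have h2 : (true :: un (f a).length).length = (f a).length + 1 := by simp [un]
  rw [h2, List.range_succ, List.reverse_append]
  rfl

theorem FQ.lsum [Inhabited β] {l : α → List β} {g : α × β → ℚ} (hl : FP l) (hg : FQ g) :
    FQ fun a => ((l a).map fun b => g (a, b)).sum :=
  FQ.comp (g := fun a => (a, l a)) (FQ.listSum hg) (FP.id.pair hl)

theorem FQ.lprod [Inhabited β] {l : α → List β} {g : α × β → ℚ} (hl : FP l) (hg : FQ g) :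
    FQ fun a => ((l a).map fun b => g (a, b)).prod :=
  FQ.comp (g := fun a => (a, l a)) (FQ.listProd hg) (FP.id.pair hl)

theorem prod_map_range {M : Type*} [CommMonoid M] (n : ℕ) (g : ℕ → M) :
    ((List.range n).map g).prod = ∏ i ∈ Finset.range n, g i := by
  rw [← List.prod_toFinset _ (List.nodup_range), List.toFinset_range]

/-- `m`-th power, for `m ≤ n` -/
def pw (n m : ℕ) (c : ℚ) : ℚ := ∏ k ∈ Finset.range n, if m - k = 0 then 1 else c

/-- factorial of `m`, for `m ≤ n` -/
def fct (n m : ℕ) : ℚ := ∏ k ∈ Finset.range n, if m - k = 0 then 1 else (k : ℚ) + 1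

theorem prod_split {n m : ℕ} (h : m ≤ n) (g : ℕ → ℚ) :
    (∏ k ∈ Finset.range n, if m - k = 0 then 1 else g k) = ∏ k ∈ Finset.range m, g k := by
  rw [← Finset.prod_subset (s₁ := Finset.range m) (s₂ := Finset.range n)]
  · refine Finset.prod_congr rfl fun k hk => ?_
    rw [Finset.mem_range] at hk
    rw [if_neg (by omega)]
  · exact Finset.range_subset_range.2 h
  · intro k _ hk
    rw [Finset.mem_range, not_lt] at hk
    rw [if_pos (by omega)]

theorem pw_eq {n m : ℕ} (h : m ≤ n) (c : ℚ) : pw n m c = c ^ m := by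
  rw [pw, prod_split h, Finset.prod_const, Finset.card_range]

theorem fct_eq {n m : ℕ} (h : m ≤ n) : fct n m = (m.factorial : ℚ) := by
  rw [fct, prod_split h, ← Finset.prod_range_add_one_eq_factorial]
  push_cast
  rfl

theorem FQ.pw {n : α → List Bool} {m : α → ℕ} {c : α → ℚ} (hn : FP n) (hm : FP m) (hc : FQ c) :
    FQ fun a => PQE.pw (n a).length (m a) (c a) := by
  have h1 : FP fun q : α × ℕ => decide (m q.1 - q.2 = 0) :=
    FP.natEq (FP.natSub (hm.comp FP.fst) FP.snd) (FP.const 0)
  have h2 : FQ fun q : α × ℕ => if decide (m q.1 - q.2 = 0) then 1 else c q.1 :=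
    FQ.ite h1 (FQ.const 1) (FQ.comp hc FP.fst)
  refine FQ.congr (FQ.lprod (FP.range hn) h2) fun a => ?_
  rw [prod_map_range, PQE.pw]
  simp only [decide_eq_true_eq]

theorem FQ.fct {n : α → List Bool} {m : α → ℕ} (hn : FP n) (hm : FP m) :
    FQ fun a => PQE.fct (n a).length (m a) := by
  have h1 : FP fun q : α × ℕ => decide (m q.1 - q.2 = 0) :=
    FP.natEq (FP.natSub (hm.comp FP.fst) FP.snd) (FP.const 0)
  have h2 : FQ fun q : α × ℕ => if decide (m q.1 - q.2 = 0) then 1 else (q.2 : ℚ) + 1 :=
    FQ.ite h1 (FQ.const 1) (FQ.add (FQ.ofNat FP.snd) (FQ.const 1))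
  refine FQ.congr (FQ.lprod (FP.range hn) h2) fun a => ?_
  rw [prod_map_range, PQE.fct]
  simp only [decide_eq_true_eq]

theorem FQ.powU {n : α → List Bool} {c : α → ℚ} (hn : FP n) (hc : FQ c) :
    FQ fun a => c a ^ (n a).length :=
  FQ.congr (FQ.pw hn (FP.len hn) hc) fun _ => (pw_eq le_rfl _).symm

theorem FQ.factU {n : α → List Bool} (hn : FP n) : FQ fun a => ((n a).length.factorial : ℚ) :=
  FQ.congr (FQ.fct hn (FP.len hn)) fun _ => (fct_eq le_rfl).symm

theorem FQ.zv {f : α → In} (hf : FP f) : FQ fun a => ((zv (f a) : ℤ) : ℚ) :=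
  ⟨fun a => (f a, 1), hf.pair (FP.const 1), fun _ => one_ne_zero, fun a => by
    simp [toQ, PQE.zv]⟩

/-- the coefficients of the polarisation -/
def cf (n m : ℕ) : ℚ := pw n (n - m) (-1) / (fct n m * fct n (n - m))

theorem cf_eq {n m : ℕ} (h : m ≤ n) :
    cf n m = (-1) ^ (n - m) / ((m.factorial : ℚ) * ((n - m).factorial : ℚ)) := by
  rw [cf, pw_eq (Nat.sub_le _ _), fct_eq h, fct_eq (Nat.sub_le _ _)]

theorem FQ.cf {n : α → List Bool} {m : α → ℕ} (hn : FP n) (hm : FP m) :
    FQ fun a => PQE.cf (n a).length (m a) := by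
  have h1 : FP fun a => (n a).length - m a := FP.natSub (FP.len hn) hm
  unfold PQE.cf
  exact FQ.div (FQ.pw hn h1 (FQ.const (-1))) (FQ.mul (FQ.fct hn hm) (FQ.fct hn h1))

end

/-! ## Polarisation -/

/-- value of an integral form in the homogeneous variables -/
noncomputable def zX (A : Qz) : MvPolynomial ℕ ℚ := zsv (fun p => X p.1 * X p.2) A

/-- integral multiples of a form -/
def sclf (f : ℕ) (A : Qz) : Qz := A.map (scz f)

theorem zX_sclf (f : ℕ) (A : Qz) : zX (sclf f A) = (f : MvPolynomial ℕ ℚ) * zX A := by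
  rw [sclf, zX, zsv_scz, smul_eq_C_mul, zX]
  simp

theorem zX_append (A B : Qz) : zX (A ++ B) = zX A + zX B := zsv_append _ _ _

section

variable {α : Type} [N487b59b3 α]

theorem FP.sclf {f : α → ℕ} {A : α → Qz} (hf : FP f) (hA : FP A) :
    FP fun a => PQE.sclf (f a) (A a) := by
  have h1 : FP fun q : α × ((ℕ × ℕ) × In) => PQE.scz (f q.1) q.2 :=
    FP.scz.comp ((hf.comp FP.fst).pair FP.snd)
  exact fp_map hA h1

instance : Inhabited (Qz × List Bool) := ⟨([], [])⟩
instance : Inhabited (El × Qz) := ⟨(((0, 0), 1), [])⟩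

theorem polF (n : ℕ) : ∃ P : List (Qz × List Bool) → List (El × Qz), FP P ∧
    (∀ l, ∀ x ∈ P l, x.1.2 ≠ 0) ∧ ∀ l, l.length ≤ n →
      (P l).map (fun x => (toQ x.1, zX x.2)) = pol (l.map fun q => (zX q.1, q.2.length)) := by
  induction n with
  | zero =>
    refine ⟨fun _ => [(((1, 0), 1), [])], FP.const _, fun l x hx => ?_, fun l hl => ?_⟩
    · rw [List.mem_singleton] at hx
      rw [hx]
      exact one_ne_zero
    · have h1 := List.eq_nil_of_length_eq_zero (Nat.le_zero.1 hl)
      subst h1
      have h7 : toQ ((1, 0), 1) = 1 := by simp [toQ]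
      simp [h7, pol, zX, zsv]
  | succ n ih =>
    obtain ⟨P, h1, h2, h3⟩ := ih
    obtain ⟨cE, h4, h5, h6⟩ := FQ.cf (α := List Bool × ℕ) FP.fst FP.snd
    have h7 : FP fun q : (List (Qz × List Bool) × ℕ) × (El × Qz) =>
        ((elMul q.2.1 (cE ((q.1.1.headD ([], [])).2, q.1.2)),
          q.2.2 ++ sclf q.1.2 (q.1.1.headD ([], [])).1) : El × Qz) := by
      have h8 : FP fun q : (List (Qz × List Bool) × ℕ) × (El × Qz) => q.1.1.headD ([], []) :=
        FP.headD (by fun_prop) _
      exact FP.pair (fp_elMul (by fun_prop) (h4.comp (FP.pair h8.snd' (by fun_prop))))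
        (FP.append (by fun_prop) (FP.sclf (by fun_prop) h8.fst'))
    have h9 : FP fun q : List (Qz × List Bool) × ℕ => (P q.1.tail).map fun p =>
        ((elMul p.1 (cE ((q.1.headD ([], [])).2, q.2)),
          p.2 ++ sclf q.2 (q.1.headD ([], [])).1) : El × Qz) :=
      fp_map (h1.comp (FP.tail FP.fst)) h7
    have h10 : FP fun l : List (Qz × List Bool) =>
        (List.range (true :: (l.headD ([], [])).2).length).flatMap fun f =>
          (P l.tail).map fun p => ((elMul p.1 (cE ((l.headD ([], [])).2, f)),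
            p.2 ++ sclf f (l.headD ([], [])).1) : El × Qz) :=
      fp_flatMap (FP.range (FP.cons (FP.const true) (FP.headD FP.id _).snd')) h9
    refine ⟨_, h10, fun l x hx => ?_, fun l hl => ?_⟩
    · obtain ⟨f, _, hx⟩ := List.mem_flatMap.1 hx
      obtain ⟨p, hp, rfl⟩ := List.mem_map.1 hx
      exact mul_ne_zero (h2 _ p hp) (h5 _)
    · cases l with
      | nil =>
        have h11 := h3 [] (Nat.zero_le _)
        have h12 : cf 0 0 = 1 := by rw [cf_eq le_rfl]; simp
        simp only [List.headD_nil, List.length_cons, List.length_nil, zero_add, List.range_one,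
          List.tail_nil, List.flatMap_cons, List.flatMap_nil, List.append_nil, List.map_map]
        rw [← h11]
        refine List.map_congr_left fun p _ => ?_
        simp only [Function.comp_apply, toQ_mul, h6, List.length_nil, h12, mul_one]
        have h13 : sclf 0 [] = [] := rfl
        rw [h13, List.append_nil]
      | cons q l =>
        have h11 := h3 l (by simpa using hl)
        simp only [List.headD_cons, List.length_cons, List.tail_cons, List.map_cons, pol]
        rw [← h11, List.map_flatMap]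
        refine List.flatMap_congr fun f hf => ?_
        rw [List.mem_range] at hf
        rw [List.map_map, List.map_map]
        refine List.map_congr_left fun p _ => ?_
        simp only [Function.comp_apply, toQ_mul, h6, zX_append, zX_sclf]
        rw [cf_eq (by omega)]

end

end Pool.Agent.PQE
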