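import Pool.Agent.PQE.Crit

set_option autoImplicit false

/-!
# Truncation

Scaling of one variable and a finite difference decide whether all coefficients of large degree in
this variable vanish; after homogenisation these are the coefficients of small total degree.
-/

open scoped BigOperators

namespace Pool.Agent.PQE

open MvPolynomial

variable {σ : Type*} [DecidableEq σ]

/-- multiplication of the variable `o` by `w` -/
noncomputable def scale (o : σ) (w : ℚ) : MvPolynomial σ ℚ →ₐ[ℚ] MvPolynomial σ ℚ :=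
  aeval fun i => if i = o then C w * X i else X i

theorem scale_monomial (o : σ) (w : ℚ) (a : σ →₀ ℕ) (c : ℚ) :
    scale o w (monomial a c) = monomial a (w ^ a o * c) := by
  rw [scale, aeval_monomial]
  have h : (a.prod fun i k => (if i = o then C w * X i else X i : MvPolynomial σ ℚ) ^ k)
      = C (w ^ a o) * a.prod fun i k => (X i : MvPolynomial σ ℚ) ^ k := by
    rw [Finsupp.prod, Finsupp.prod]
    have h1 : ∀ i ∈ a.support, ((if i = o then C w * X i else X i : MvPolynomial σ ℚ)) ^ a i
        = (if i = o then C (w ^ a o) else 1) * X i ^ a i := by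
      intro i _
      by_cases hi : i = o
      · subst hi
        rw [if_pos rfl, if_pos rfl, mul_pow, C_pow]
      · rw [if_neg hi, if_neg hi, one_mul]
    rw [Finset.prod_congr rfl h1, Finset.prod_mul_distrib, Finset.prod_ite_eq']
    congr 1
    by_cases ho : o ∈ a.support
    · rw [if_pos ho]
    · rw [if_neg ho, Finsupp.notMem_support_iff.1 ho, pow_zero, C_1]
  rw [h, mul_left_comm, show (algebraMap ℚ (MvPolynomial σ ℚ)) c = C c from rfl,
    ← monomial_eq, C_mul_monomial]

theorem coeff_scale (o : σ) (w : ℚ) (p : MvPolynomial σ ℚ) (a : σ →₀ ℕ) :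
    (scale o w p).coeff a = w ^ a o * p.coeff a := by
  induction p using MvPolynomial.induction_on' with
  | monomial b c =>
    rw [scale_monomial, coeff_monomial, coeff_monomial]
    split_ifs with h
    · rw [h]
    · rw [mul_zero]
  | add p q hp hq => rw [map_add, coeff_add, hp, hq, coeff_add, mul_add]

theorem fis_scale (o : σ) (w : ℚ) (p : MvPolynomial σ ℚ) :
    fis (scale o w p) p = ∑ a ∈ p.support, w ^ a o * ((fac a : ℚ) * (p.coeff a * p.coeff a)) := by
  rw [fis_eq_sum (scale o w p) p (s := p.support)]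
  · refine Finset.sum_congr rfl fun a _ => ?_
    rw [coeff_scale]
    ring
  · intro a ha
    rw [mem_support_iff, coeff_scale] at ha
    exact mem_support_iff.2 fun h => ha (by rw [h, mul_zero])

/-- the numbers `∑ (-1)^(i-w) (w+1)^m / (w! (i-w)!)` are `0` for `m < i` and positive for
`i ≤ m` -/
noncomputable def stir (i m : ℕ) : ℚ :=
  ∑ w ∈ Finset.range (i + 1), ((-1 : ℚ) ^ (i - w) / (w.factorial * (i - w).factorial))
    * ((w : ℚ) + 1) ^ m

theorem stir_zero (m : ℕ) : stir 0 m = 1 := by
  simp [stir]

theorem stir_succ_zero (i : ℕ) : stir (i + 1) 0 = 0 := by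
  have h := sum_pow_range (Nat.zero_le (i + 1))
  rw [if_neg (Nat.succ_ne_zero i).symm] at h
  rw [stir]
  simpa using h

/-- the recursion -/
theorem stir_succ (i m : ℕ) : stir (i + 1) (m + 1) = ((i : ℚ) + 2) * stir (i + 1) m + stir i m := by
  have h1 : stir (i + 1) (m + 1) - ((i : ℚ) + 2) * stir (i + 1) m
      = ∑ w ∈ Finset.range (i + 2), ((-1 : ℚ) ^ (i + 1 - w) / (w.factorial
        * (i + 1 - w).factorial)) * ((w : ℚ) - (i + 1)) * ((w : ℚ) + 1) ^ m := by
    rw [stir, stir, Finset.mul_sum, ← Finset.sum_sub_distrib]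
    refine Finset.sum_congr rfl fun w _ => ?_
    ring
  have h2 : stir i m = ∑ w ∈ Finset.range (i + 2), ((-1 : ℚ) ^ (i + 1 - w) / (w.factorial
        * (i + 1 - w).factorial)) * ((w : ℚ) - (i + 1)) * ((w : ℚ) + 1) ^ m := by
    rw [Finset.sum_range_succ, stir]
    push_cast
    rw [sub_self, mul_zero, zero_mul, add_zero]
    refine Finset.sum_congr rfl fun w hw => ?_
    have hw' : w ≤ i := Nat.lt_succ_iff.1 (Finset.mem_range.1 hw)
    congr 1
    rw [show i + 1 - w = (i - w) + 1 by omega, pow_succ, Nat.factorial_succ]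
    have h3 : ((w.factorial : ℕ) : ℚ) ≠ 0 := Nat.cast_ne_zero.2 w.factorial_ne_zero
    have h4 : (((i - w).factorial : ℕ) : ℚ) ≠ 0 := Nat.cast_ne_zero.2 (i - w).factorial_ne_zero
    have h5 : (((i - w : ℕ) : ℚ) + 1) ≠ 0 := by positivity
    have h6 : ((i - w : ℕ) : ℚ) = (i : ℚ) - w := Nat.cast_sub hw'
    push_cast
    rw [h6] at h5 ⊢
    field_simp
    ring
  rw [h2, ← h1]
  ring

theorem stir_of_lt {i m : ℕ} (h : m < i) : stir i m = 0 := by
  induction m generalizing i with
  | zero =>
    obtain ⟨i, rfl⟩ : ∃ j, i = j + 1 := ⟨i - 1, by omega⟩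
    exact stir_succ_zero i
  | succ m ih =>
    obtain ⟨i, rfl⟩ : ∃ j, i = j + 1 := ⟨i - 1, by omega⟩
    rw [stir_succ, ih (by omega), ih (by omega)]
    simp

theorem stir_pos {i m : ℕ} (h : i ≤ m) : 0 < stir i m := by
  induction m generalizing i with
  | zero =>
    obtain rfl : i = 0 := by omega
    rw [stir_zero]
    norm_num
  | succ m ih =>
    cases i with
    | zero =>
      rw [stir_zero]
      norm_num
    | succ i =>
      rw [stir_succ]
      have h1 := ih (Nat.le_of_succ_le_succ h)
      rcases Nat.lt_or_ge m (i + 1) with h2 | h2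
      · rw [stir_of_lt h2, mul_zero, zero_add]
        exact h1
      · have h3 := ih h2
        positivity

/-- one rational number decides whether all coefficients of degree at least `i` in the variable `o`
vanish -/
theorem diff_crit (o : σ) (i : ℕ) (p : MvPolynomial σ ℚ) :
    ∑ w ∈ Finset.range (i + 1), ((-1 : ℚ) ^ (i - w) / (w.factorial * (i - w).factorial))
        * fis (scale o ((w : ℚ) + 1) p) p = 0
      ↔ ∀ a : σ →₀ ℕ, i ≤ a o → p.coeff a = 0 := by
  have h1 : ∑ w ∈ Finset.range (i + 1), ((-1 : ℚ) ^ (i - w) / (w.factorial * (i - w).factorial))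
        * fis (scale o ((w : ℚ) + 1) p) p
      = ∑ a ∈ p.support, stir i (a o) * ((fac a : ℚ) * (p.coeff a * p.coeff a)) := by
    simp_rw [fis_scale, Finset.mul_sum]
    rw [Finset.sum_comm]
    refine Finset.sum_congr rfl fun a _ => ?_
    rw [stir, Finset.sum_mul]
    refine Finset.sum_congr rfl fun w _ => ?_
    rw [mul_assoc]
  have h2 : ∀ a : σ →₀ ℕ, 0 ≤ stir i (a o) := fun a => by
    rcases Nat.lt_or_ge (a o) i with h | h
    · rw [stir_of_lt h]
    · exact (stir_pos h).le
  rw [h1, Finset.sum_eq_zero_iff_of_nonneg fun a _ => mul_nonneg (h2 a)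
    (mul_nonneg (Nat.cast_nonneg _) (mul_self_nonneg _))]
  constructor
  · intro h a ha
    by_contra h3
    have h4 := h a (mem_support_iff.2 h3)
    rw [mul_eq_zero, mul_eq_zero, mul_self_eq_zero] at h4
    rcases h4 with h4 | h4 | h4
    · exact (stir_pos ha).ne' h4
    · exact Nat.cast_ne_zero.2 (fac_pos a).ne' h4
    · exact h3 h4
  · intro h a ha
    rcases Nat.lt_or_ge (a o) i with h3 | h3
    · rw [stir_of_lt h3, zero_mul]
    · exact absurd (h a h3) (mem_support_iff.1 ha)

theorem scale_X (o : σ) (w : ℚ) (i : σ) :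
    scale o w (X i) = C (if i = o then w else 1) * X i := by
  rw [scale, aeval_X]
  split_ifs with h
  · rfl
  · rw [C_1, one_mul]

theorem scale_quad (o : σ) (w : ℚ) (N : Finset σ) (a : σ → σ → ℚ) :
    scale o w (quad N a) = quad N fun i j =>
      (if i = o then w else 1) * (if j = o then w else 1) * a i j := by
  rw [quad, quad, map_sum]
  refine Finset.sum_congr rfl fun i _ => ?_
  rw [map_sum]
  refine Finset.sum_congr rfl fun j _ => ?_
  rw [map_mul, map_mul, scale_X, scale_X, C_mul, C_mul,
    show scale o w (C (a i j)) = C (a i j) from (scale o w).commutes _]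
  ring

end Pool.Agent.PQE
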